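import Pool.Agent.TH934.WGA.Plan

/-!
# From the plan to a realization of the weak greedy algorithm that does not converge
-/

namespace TH934.WGA

open MeasureTheory Filter Topology Real
open scoped RealInnerProductSpace

variable {X Y : Type*} [NormedAddCommGroup X] [InnerProductSpace ℝ X]
  [NormedAddCommGroup Y] [InnerProductSpace ℝ Y]

/-- Cauchy-Schwarz in two steps. -/
private lemma cs2 {p q A B S x y : ℝ} (hA : 0 ≤ A) (hB : 0 ≤ B) (hx0 : 0 ≤ x) (hy0 : 0 ≤ y)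
    (hx : x ^ 2 = p ^ 2 + A) (hy : y ^ 2 = q ^ 2 + B) (hS : S ^ 2 ≤ A * B) :
    p * q + S ≤ x * y := by
  have h1 : 2 * (p * q) * S ≤ p ^ 2 * B + q ^ 2 * A := by
    have h0 : 0 ≤ p ^ 2 * B + q ^ 2 * A := by positivity
    refine le_trans (le_abs_self _) (abs_le_of_sq_le_sq ?_ h0)
    have h2 : (2 * (p * q) * S) ^ 2 = 4 * (p ^ 2 * q ^ 2) * S ^ 2 := by ring
    have h3 : 4 * (p ^ 2 * q ^ 2) * S ^ 2 ≤ 4 * (p ^ 2 * q ^ 2) * (A * B) :=
      mul_le_mul_of_nonneg_left hS (by positivity)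
    nlinarith [sq_nonneg (p ^ 2 * B - q ^ 2 * A)]
  refine le_trans (le_abs_self _) (abs_le_of_sq_le_sq ?_ (mul_nonneg hx0 hy0))
  have h4 : (x * y) ^ 2 = (p ^ 2 + A) * (q ^ 2 + B) := by rw [mul_pow, hx, hy]
  rw [h4]
  nlinarith

private lemma norm_sub_sum_sq {e' : ℕ → X} (he' : Orthonormal ℝ e') (u : X) (n : ℕ) :
    ‖u - ∑ j ∈ Finset.range n, ⟪e' j, u⟫ • e' j‖ ^ 2
      = ‖u‖ ^ 2 - ∑ j ∈ Finset.range n, ⟪e' j, u⟫ ^ 2 := by
  rw [norm_sub_sq_real]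
  have h1 : ⟪u, ∑ j ∈ Finset.range n, ⟪e' j, u⟫ • e' j⟫
      = ∑ j ∈ Finset.range n, ⟪e' j, u⟫ ^ 2 := by
    rw [inner_sum]
    refine Finset.sum_congr rfl fun j _ => ?_
    rw [real_inner_smul_right, real_inner_comm, sq]
  have h2 : ‖∑ j ∈ Finset.range n, ⟪e' j, u⟫ • e' j‖ ^ 2
      = ∑ j ∈ Finset.range n, ⟪e' j, u⟫ ^ 2 := by
    rw [← real_inner_self_eq_norm_sq, he'.inner_sum]
    refine Finset.sum_congr rfl fun j _ => ?_
    simp [sq]
  rw [h1, h2]; ring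

/-- The main estimate. -/
private lemma main_bound (T : X →ₗ[ℝ] X →ₗ[ℝ] Y)
    {e' : ℕ → X} (he' : Orthonormal ℝ e') {g : Y} {m : ℝ} (hm : 0 ≤ m)
    (hbound : ∀ u v : X, |⟪g, T u v⟫| ≤ m * ‖u‖ * ‖v‖)
    (hL : ∀ j (v : X), ⟪g, T (e' j) v⟫ = 0) (hR : ∀ j (u : X), ⟪g, T u (e' j)⟫ = 0)
    (μ : ℕ → ℝ) (k n : ℕ) (hμ : ∀ j, k ≤ j → |μ j| ≤ m) (u v : X) :
    |⟪g, T u v⟫ + ∑ j ∈ Finset.Ico k n, μ j * (⟪e' j, u⟫ * ⟪e' j, v⟫)| ≤ m * (‖u‖ * ‖v‖) := by
  set u' := u - ∑ j ∈ Finset.range n, ⟪e' j, u⟫ • e' j with hu'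
  set v' := v - ∑ j ∈ Finset.range n, ⟪e' j, v⟫ • e' j with hv'
  have h1 : ⟪g, T u v⟫ = ⟪g, T u' v'⟫ := by
    have h2 : ∀ w : X, ⟪g, T u' w⟫ = ⟪g, T u w⟫ := by
      intro w
      rw [hu', map_sub, LinearMap.sub_apply, inner_sub_right, map_sum, LinearMap.sum_apply,
        inner_sum]
      have : ∀ j ∈ Finset.range n, ⟪g, (T (⟪e' j, u⟫ • e' j)) w⟫ = 0 := fun j _ => by
        rw [map_smul, LinearMap.smul_apply, real_inner_smul_right, hL, mul_zero]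
      rw [Finset.sum_eq_zero this, sub_zero]
    have h3 : ⟪g, T u v'⟫ = ⟪g, T u v⟫ := by
      rw [hv', map_sub, inner_sub_right, map_sum, inner_sum]
      have : ∀ j ∈ Finset.range n, ⟪g, (T u) (⟪e' j, v⟫ • e' j)⟫ = 0 := fun j _ => by
        rw [map_smul, real_inner_smul_right, hR, mul_zero]
      rw [Finset.sum_eq_zero this, sub_zero]
    rw [h2, h3]
  have hu2 := norm_sub_sum_sq he' u n
  have hv2 := norm_sub_sum_sq he' v n
  rw [← hu'] at hu2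
  rw [← hv'] at hv2
  set A := ∑ j ∈ Finset.range n, ⟪e' j, u⟫ ^ 2 with hA
  set B := ∑ j ∈ Finset.range n, ⟪e' j, v⟫ ^ 2 with hB
  have hA0 : 0 ≤ A := Finset.sum_nonneg fun j _ => sq_nonneg _
  have hB0 : 0 ≤ B := Finset.sum_nonneg fun j _ => sq_nonneg _
  have hS : (∑ j ∈ Finset.range n, |⟪e' j, u⟫| * |⟪e' j, v⟫|) ^ 2 ≤ A * B := by
    have := Finset.sum_mul_sq_le_sq_mul_sq (Finset.range n) (fun j => |⟪e' j, u⟫|)
      (fun j => |⟪e' j, v⟫|)
    simpa only [sq_abs] using this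
  have h5 : |∑ j ∈ Finset.Ico k n, μ j * (⟪e' j, u⟫ * ⟪e' j, v⟫)|
      ≤ m * ∑ j ∈ Finset.range n, |⟪e' j, u⟫| * |⟪e' j, v⟫| := by
    calc |∑ j ∈ Finset.Ico k n, μ j * (⟪e' j, u⟫ * ⟪e' j, v⟫)|
        ≤ ∑ j ∈ Finset.Ico k n, |μ j * (⟪e' j, u⟫ * ⟪e' j, v⟫)| := Finset.abs_sum_le_sum_abs _ _
      _ ≤ ∑ j ∈ Finset.Ico k n, m * (|⟪e' j, u⟫| * |⟪e' j, v⟫|) := by
          refine Finset.sum_le_sum fun j hj => ?_
          rw [abs_mul, abs_mul]
          exact mul_le_mul_of_nonneg_right (hμ j (Finset.mem_Ico.1 hj).1) (by positivity)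
      _ ≤ ∑ j ∈ Finset.range n, m * (|⟪e' j, u⟫| * |⟪e' j, v⟫|) := by
          refine Finset.sum_le_sum_of_subset_of_nonneg ?_ fun j _ _ => by positivity
          intro j hj
          exact Finset.mem_range.2 (Finset.mem_Ico.1 hj).2
      _ = _ := by rw [Finset.mul_sum]
  have h6 : ‖u'‖ * ‖v'‖ + ∑ j ∈ Finset.range n, |⟪e' j, u⟫| * |⟪e' j, v⟫| ≤ ‖u‖ * ‖v‖ :=
    cs2 hA0 hB0 (norm_nonneg _) (norm_nonneg _) (by rw [hu2]; ring) (by rw [hv2]; ring) hS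
  calc |⟪g, T u v⟫ + ∑ j ∈ Finset.Ico k n, μ j * (⟪e' j, u⟫ * ⟪e' j, v⟫)|
      ≤ |⟪g, T u v⟫| + |∑ j ∈ Finset.Ico k n, μ j * (⟪e' j, u⟫ * ⟪e' j, v⟫)| := abs_add_le _ _
    _ ≤ m * ‖u'‖ * ‖v'‖ + m * ∑ j ∈ Finset.range n, |⟪e' j, u⟫| * |⟪e' j, v⟫| := by
        refine add_le_add ?_ h5
        rw [h1]; exact hbound u' v'
    _ = m * (‖u'‖ * ‖v'‖ + ∑ j ∈ Finset.range n, |⟪e' j, u⟫| * |⟪e' j, v⟫|) := by ring
    _ ≤ m * (‖u‖ * ‖v‖) := mul_le_mul_of_nonneg_left h6 hm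

theorem not_converges_of_plan [CompleteSpace Y] (T : X →ₗ[ℝ] X →ₗ[ℝ] Y)
    (hT : ∀ u v u' v' : X, ⟪T u v, T u' v'⟫ = ⟪u, u'⟫ * ⟪v, v'⟫)
    (D : Set Y) (hD1 : ∀ u v : X, ‖u‖ = 1 → ‖v‖ = 1 → T u v ∈ D)
    (hD2 : ∀ g ∈ D, ∃ u v : X, ‖u‖ * ‖v‖ = 1 ∧ g = T u v)
    (e' : ℕ → X) (he' : Orthonormal ℝ e') (t r : ℕ → ℝ) (Rem : Set ℕ)
    (ht0 : ∀ k, 0 ≤ t k) (ht1 : ∀ k, t k ≤ 1)
    (hRem0 : ∀ k ∈ Rem, r k = 0) (hRem1 : ∀ k ∉ Rem, t k ≤ r k)
    (N : ℕ) (g : ℕ → Y) (M : ℕ → ℝ) (y z : ℕ → X) (hplan : Plan T e' r N g M y z)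
    (hsum : Summable (Rem.indicator fun k => M k ^ 2)) : ¬ Converges D t := by
  classical
  set μ : ℕ → ℝ := fun k => if k ∈ Rem then M k else 0 with hμ
  set b : ℕ → Y := fun j => T (e' j) (e' j) with hb
  have hbon : Orthonormal ℝ b := by
    rw [orthonormal_iff_ite]
    intro i j
    rw [hb]
    simp only [hT]
    rw [orthonormal_iff_ite.1 he' i j]
    split <;> simp
  have hμsum : Summable (fun j => μ j • b j) := by
    have h1 := (hbon.orthogonalFamily.summable_iff_norm_sq_summable (f := fun j => μ j)).2 (by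
      refine hsum.congr fun j => ?_
      by_cases hj : j ∈ Rem
      · simp [Set.indicator, hμ, hj]
      · simp [Set.indicator, hμ, hj])
    simpa using h1
  obtain ⟨S, hS⟩ := hμsum
  set R : ℕ → Y := fun k => S - ∑ j ∈ Finset.range k, μ j • b j with hRdef
  have hRlim : ∀ (k : ℕ) (d : Y), Tendsto (fun n => ∑ j ∈ Finset.Ico k n, μ j * ⟪b j, d⟫)
      atTop (𝓝 ⟪R k, d⟫) := by
    intro k d
    have h1 : Tendsto (fun n => ⟪(∑ j ∈ Finset.range n, μ j • b j)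
        - ∑ j ∈ Finset.range k, μ j • b j, d⟫) atTop (𝓝 ⟪R k, d⟫) :=
      ((hS.tendsto_sum_nat).sub_const _).inner tendsto_const_nhds
    refine h1.congr' ?_
    filter_upwards [eventually_ge_atTop k] with n hn
    rw [← Finset.sum_Ico_eq_sub _ hn, sum_inner]
    exact Finset.sum_congr rfl fun j _ => real_inner_smul_left _ _ _
  have hRstep : ∀ k, R (k + 1) = R k - μ k • b k := by
    intro k
    rw [hRdef]
    simp only [Finset.sum_range_succ]
    abel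
  have hMle : ∀ k j, k ≤ j → M j ≤ M k := fun k j h =>
    antitone_nat_of_succ_le hplan.M_anti h
  have hμle : ∀ k j, k ≤ j → |μ j| ≤ M k := by
    intro k j h
    by_cases hj : j ∈ Rem
    · simp only [hμ, if_pos hj]
      rw [abs_of_pos (hplan.M_pos j)]
      exact hMle k j h
    · simp only [hμ, if_neg hj, abs_zero]
      exact (hplan.M_pos k).le
  -- the inner products of the tail
  have hbT : ∀ j (u v : X), ⟪b j, T u v⟫ = ⟪e' j, u⟫ * ⟪e' j, v⟫ := fun j u v => hT _ _ _ _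
  have hRzero : ∀ (k : ℕ) (d : Y), (∀ j, ⟪b j, d⟫ = 0) → ⟪R k, d⟫ = 0 := by
    intro k d hd
    refine tendsto_nhds_unique (hRlim k d) ?_
    refine tendsto_const_nhds.congr fun n => ?_
    rw [Finset.sum_eq_zero fun j _ => by rw [hd j, mul_zero]]
  have hRb : ∀ k, ⟪R k, b k⟫ = μ k := by
    intro k
    refine tendsto_nhds_unique (hRlim k (b k)) ?_
    refine tendsto_const_nhds.congr' ?_
    filter_upwards [eventually_gt_atTop k] with n hn
    rw [Finset.sum_eq_single k]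
    · rw [real_inner_self_eq_norm_sq, hbon.1 k]; simp
    · intro j _ hj
      rw [hbon.2 hj, mul_zero]
    · intro h
      exact absurd (Finset.mem_Ico.2 ⟨le_refl k, hn⟩) h
  have hsup : ∀ k, ∀ d ∈ D, |⟪g k + R k, d⟫| ≤ M k := by
    intro k d hd
    obtain ⟨u, v, huv, rfl⟩ := hD2 d hd
    have h1 : Tendsto (fun n => |⟪g k, T u v⟫
        + ∑ j ∈ Finset.Ico k n, μ j * (⟪e' j, u⟫ * ⟪e' j, v⟫)|) atTop
        (𝓝 |⟪g k, T u v⟫ + ⟪R k, T u v⟫|) := by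
      refine ((hRlim k (T u v)).const_add _).abs.congr fun n => ?_
      simp only [hbT]
    rw [inner_add_left]
    refine le_of_tendsto h1 (Eventually.of_forall fun n => ?_)
    have := main_bound T he' (hplan.M_pos k).le (hplan.bound k) (hplan.orthL k) (hplan.orthR k)
      μ k n (hμle k) u v
    rwa [huv, mul_one] at this
  set f : ℕ → Y := fun k => g k + R k with hf
  set φ : ℕ → Y := fun k => if k ∈ Rem then b k else T (y k) (z k) with hφ
  have hφmem : ∀ k, φ k ∈ D := by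
    intro k
    by_cases hk : k ∈ Rem
    · simp only [hφ, if_pos hk]
      exact hD1 _ _ (he'.1 k) (he'.1 k)
    · simp only [hφ, if_neg hk]
      exact hD1 _ _ (hplan.y_norm k) (hplan.z_norm k)
  have hip : ∀ k, ⟪f k, φ k⟫ = if k ∈ Rem then M k else r k * M k := by
    intro k
    by_cases hk : k ∈ Rem
    · simp only [hφ, hf, if_pos hk]
      rw [inner_add_left, hRb, hplan.orthL k k (e' k), zero_add, hμ]
      simp [hk]
    · simp only [hφ, hf, if_neg hk]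
      rw [inner_add_left, hplan.inner_g, hRzero k _ (fun j => by
        rw [hbT, real_inner_comm, hplan.y_orth, zero_mul]), add_zero]
  have hWGA : IsWGA D t f φ := by
    refine ⟨hφmem, fun k => ?_, fun k => ?_⟩
    · have hne : Nonempty D := ⟨⟨φ k, hφmem k⟩⟩
      have h1 : (⨆ d : D, |⟪f k, (d : Y)⟫|) ≤ M k := ciSup_le fun d => hsup k d d.2
      have h2 : t k * (⨆ d : D, |⟪f k, (d : Y)⟫|) ≤ t k * M k :=
        mul_le_mul_of_nonneg_left h1 (ht0 k)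
      refine h2.trans ?_
      rw [hip k]
      have hM := hplan.M_pos k
      by_cases hk : k ∈ Rem
      · rw [if_pos hk, abs_of_pos hM]
        nlinarith [ht1 k]
      · rw [if_neg hk]
        refine le_trans ?_ (le_abs_self _)
        exact mul_le_mul_of_nonneg_right (hRem1 k hk) hM.le
    · rw [hip k]
      by_cases hk : k ∈ Rem
      · simp only [hφ, hf, if_pos hk]
        rw [hRstep, hplan.step, hRem0 k hk]
        simp only [hμ, if_pos hk, zero_mul, zero_smul, sub_zero]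
        abel
      · simp only [hφ, hf, if_neg hk]
        rw [hRstep, hplan.step]
        simp only [hμ, if_neg hk, zero_smul, sub_zero]
        abel
  intro hconv
  have h0 := hconv f φ hWGA
  have h1 : Tendsto (fun m => ‖f m‖ ^ 2) atTop (𝓝 0) := by
    have := h0.pow 2
    simpa using this
  have h2 : ∀ k, 1 / 2 ≤ ‖f k‖ ^ 2 := by
    intro k
    have h3 : ⟪g k, R k⟫ = 0 := by
      rw [real_inner_comm]
      exact hRzero k _ fun j => by rw [real_inner_comm]; exact hplan.orthL k j (e' j)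
    rw [hf]
    simp only
    rw [norm_add_sq_real, h3]
    have := hplan.half k
    nlinarith [sq_nonneg ‖R k‖]
  have h3 := ge_of_tendsto' h1 h2
  norm_num at h3

end TH934.WGA
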