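import Pool.Agent.TH934.WGA.Conf

/-!
# Bounds of the state
-/

namespace TH934.WGA

open MeasureTheory Filter Topology Real
open scoped RealInnerProductSpace

variable {X Y : Type*} [NormedAddCommGroup X] [InnerProductSpace ℝ X]
  [NormedAddCommGroup Y] [InnerProductSpace ℝ Y]

theorem inv_bounds (T : X →ₗ[ℝ] X →ₗ[ℝ] Y) (hT : ∀ u v u' v' : X, ⟪T u v, T u' v'⟫ = ⟪u, u'⟫ * ⟪v, v'⟫)
    (e' : ℕ → X) (g : Y) (M ν : ℝ) (h : Inv T e' g M ν) :
    0 < M ∧ (∀ u v : X, |⟪g, T u v⟫| ≤ M * ‖u‖ * ‖v‖) ∧ (∀ j (v : X), ⟪g, T (e' j) v⟫ = 0) ∧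
      (∀ j (u : X), ⟪g, T u (e' j)⟫ = 0) ∧ 3 / 4 * ‖g‖ ^ 2 ≤ M * ν ∧ M * ν ≤ 5 / 2 * ‖g‖ ^ 2 := by
  have hpi := Real.pi_lt_d2
  have hpi0 := Real.pi_pos
  rcases h with ⟨U, V, x, n, ρ, θ, hU, hV, hM, hx, hθ0, hθ1, hρ0, hρ1, hg, hν⟩ |
    ⟨U, V, x, n, p, ρ, ψ, hU, hV, hM, hx, hψ0, hψ1, hp0, hpρ, hρ0, hg, hν⟩
  · have hρ : 0 < ρ := by nlinarith
    have hcs := Real.sin_sq_add_cos_sq θ
    have hxa : ∀ i < n, |x i| ≤ M := fun i hi => by
      rw [abs_of_nonneg (by nlinarith [(hx i hi).1])]; exact (hx i hi).2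
    have hsq : (ρ * cos θ) ^ 2 + (ρ * sin θ) ^ 2 + (0 : ℝ) ^ 2 = ρ ^ 2 := by
      linear_combination ρ ^ 2 * hcs
    have hn := conf_norm_sq T hT U V hU.on hV.on x n (ρ * cos θ) (ρ * sin θ) 0
    rw [← hg] at hn
    have hn2 : ‖g‖ ^ 2 = ∑ i ∈ Finset.range n, x i ^ 2 + ρ ^ 2 := by
      rw [hn]; linear_combination hsq
    have s1 : ∑ i ∈ Finset.range n, x i ^ 2 ≤ M * ∑ i ∈ Finset.range n, x i := by
      rw [Finset.mul_sum]
      refine Finset.sum_le_sum fun i hi => ?_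
      obtain ⟨h1, h2⟩ := hx i (Finset.mem_range.1 hi)
      nlinarith
    have s2 : M * ∑ i ∈ Finset.range n, x i ≤ 5 / 2 * ∑ i ∈ Finset.range n, x i ^ 2 := by
      rw [Finset.mul_sum, Finset.mul_sum]
      refine Finset.sum_le_sum fun i hi => ?_
      obtain ⟨h1, h2⟩ := hx i (Finset.mem_range.1 hi)
      nlinarith
    have s0 : 0 ≤ ∑ i ∈ Finset.range n, x i ^ 2 := Finset.sum_nonneg fun i _ => sq_nonneg _
    refine ⟨hM, fun u v => ?_, fun j v => ?_, fun j u => ?_, ?_, ?_⟩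
    · rw [hg]
      refine conf_inner_le T hT U V hU.on hV.on x n _ _ _ M hM.le hxa ?_ u v
      rw [hsq]
      exact pow_le_pow_left₀ hρ.le hρ1 2
    · rw [hg]
      exact conf_orthL T hT U V x n _ _ _ (e' j) (fun i => hU.orth i j) v
    · rw [hg]
      exact conf_orthR T hT U V x n _ _ _ (e' j) (fun i => hV.orth i j) u
    · rw [hn2, hν, mul_add]
      have h1 : ρ ^ 2 ≤ M * (ρ * (1 + θ / 8)) := by nlinarith [mul_pos hM hρ]
      nlinarith
    · rw [hn2, hν, mul_add, mul_add]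
      have h1 : M * (1 + θ / 8) ≤ 5 / 2 * ρ := by nlinarith
      have h2 : M * (ρ * (1 + θ / 8)) ≤ 5 / 2 * ρ ^ 2 := by nlinarith
      linarith
  · have hρM : 2 / 5 * M ≤ ρ := by nlinarith
    have hρ : 0 < ρ := by linarith
    have hp : 0 < p := by linarith
    have hρ1 : ρ ≤ M := by nlinarith
    have hp1 : p ≤ M := by nlinarith
    have hcs := Real.sin_sq_add_cos_sq ψ
    have hxa : ∀ i < n, |x i| ≤ M := fun i hi => by
      rw [abs_of_nonneg (by nlinarith [(hx i hi).1])]; exact (hx i hi).2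
    have hsq : p ^ 2 + (ρ * cos ψ) ^ 2 + (ρ * sin ψ) ^ 2 = p ^ 2 + ρ ^ 2 := by
      linear_combination ρ ^ 2 * hcs
    have hn := conf_norm_sq T hT U V hU.on hV.on x n p (ρ * cos ψ) (ρ * sin ψ)
    rw [← hg] at hn
    have hn2 : ‖g‖ ^ 2 = ∑ i ∈ Finset.range n, x i ^ 2 + p ^ 2 + ρ ^ 2 := by
      rw [hn]; linear_combination hsq
    have s1 : ∑ i ∈ Finset.range n, x i ^ 2 ≤ M * ∑ i ∈ Finset.range n, x i := by
      rw [Finset.mul_sum]
      refine Finset.sum_le_sum fun i hi => ?_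
      obtain ⟨h1, h2⟩ := hx i (Finset.mem_range.1 hi)
      nlinarith
    have s2 : M * ∑ i ∈ Finset.range n, x i ≤ 5 / 2 * ∑ i ∈ Finset.range n, x i ^ 2 := by
      rw [Finset.mul_sum, Finset.mul_sum]
      refine Finset.sum_le_sum fun i hi => ?_
      obtain ⟨h1, h2⟩ := hx i (Finset.mem_range.1 hi)
      nlinarith
    have s0 : 0 ≤ ∑ i ∈ Finset.range n, x i ^ 2 := Finset.sum_nonneg fun i _ => sq_nonneg _
    refine ⟨hM, fun u v => ?_, fun j v => ?_, fun j u => ?_, ?_, ?_⟩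
    · rw [hg]
      refine conf_inner_le T hT U V hU.on hV.on x n _ _ _ M hM.le hxa ?_ u v
      rw [hsq]
      exact hpρ
    · rw [hg]
      exact conf_orthL T hT U V x n _ _ _ (e' j) (fun i => hU.orth i j) v
    · rw [hg]
      exact conf_orthR T hT U V x n _ _ _ (e' j) (fun i => hV.orth i j) u
    · rw [hn2, hν, mul_add, mul_add]
      have h1 : 3 / 4 * ρ ^ 2 ≤ M * (ρ * (3 / 4 + ψ / 8)) := by
        have : M * (ρ * (3 / 4)) ≤ M * (ρ * (3 / 4 + ψ / 8)) := by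
          apply mul_le_mul_of_nonneg_left _ hM.le
          apply mul_le_mul_of_nonneg_left _ hρ.le
          linarith
        nlinarith
      have h2 : 3 / 4 * p ^ 2 ≤ M * p := by nlinarith
      linarith
    · rw [hn2, hν, mul_add, mul_add, mul_add, mul_add]
      have h0 : 3 / 4 + ψ / 8 ≤ 1 := by linarith
      have h1 : M * (ρ * (3 / 4 + ψ / 8)) ≤ 5 / 2 * ρ ^ 2 := by
        have : M * (ρ * (3 / 4 + ψ / 8)) ≤ M * (ρ * 1) := by
          apply mul_le_mul_of_nonneg_left _ hM.le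
          exact mul_le_mul_of_nonneg_left h0 hρ.le
        nlinarith
      have h2 : M * p ≤ 5 / 2 * p ^ 2 := by nlinarith
      linarith

end TH934.WGA
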