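import Pool.Agent.TH934.WGA.Plan

/-!
# `Slow` is Temlyakov's class `V`
-/

namespace TH934.WGA

open MeasureTheory Filter Topology Real
open scoped RealInnerProductSpace

namespace ClassV

/-! ### from the class `V` -/

section Back

variable (q : ℕ → ℕ) (hq : StrictMono q)

include hq in
theorem blk_ex (k : ℕ) : ∃ s, k < q (s + 1) :=
  ⟨k, lt_of_lt_of_le (Nat.lt_succ_self k) (hq.id_le (k + 1))⟩

open Classical in
/-- the block of `k` -/
noncomputable def blk (k : ℕ) : ℕ := if h : ∃ s, k < q (s + 1) then Nat.find h else 0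

include hq in
theorem blk_eq {k s : ℕ} (h1 : q s ≤ k) (h2 : k < q (s + 1)) : blk q k = s := by
  have h := blk_ex q hq k
  classical
  unfold blk
  rw [dif_pos h]
  apply le_antisymm
  · exact Nat.find_min' h h2
  · by_contra hlt
    rw [not_le] at hlt
    have h3 := Nat.find_spec h
    have h4 : q (Nat.find h + 1) ≤ q s := hq.monotone hlt
    omega

include hq in
theorem blk_spec (h0 : q 0 = 0) (k : ℕ) : q (blk q k) ≤ k ∧ k < q (blk q k + 1) := by
  have h := blk_ex q hq k
  classical
  have e : blk q k = Nat.find h := by unfold blk; rw [dif_pos h]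
  rw [e]
  refine ⟨?_, Nat.find_spec h⟩
  rcases Nat.eq_zero_or_pos (Nat.find h) with h1 | h1
  · rw [h1, h0]; exact Nat.zero_le _
  · by_contra h2
    rw [not_le] at h2
    have h3 := Nat.find_min h (m := Nat.find h - 1) (by omega)
    apply h3
    rw [Nat.sub_add_cancel h1]
    exact h2

end Back

/-- partial sums of a nonnegative sequence along the blocks of a monotone sequence -/
theorem blocks_sum (f : ℕ → ℝ) (Q : ℕ → ℕ) (hQ : Monotone Q) (n : ℕ) :
    ∑ s ∈ Finset.range n, ∑ k ∈ Finset.Ico (Q s) (Q (s + 1)), f k =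
      ∑ k ∈ Finset.Ico (Q 0) (Q n), f k := by
  induction n with
  | zero => simp
  | succ n ih =>
    rw [Finset.sum_range_succ, ih, Finset.sum_Ico_consecutive _ (hQ (Nat.zero_le n))
      (hQ (Nat.le_succ n))]

theorem slow_of_V (t : ℕ → ℝ) (ht0 : ∀ k, 0 ≤ t k) (ht1 : ∀ k, t k ≤ 1) (h : TemlyakovV t) :
    Slow t := by
  obtain ⟨q, hq0, hq, hs1, hs2⟩ := h
  set r : ℝ := Real.sqrt 2 with hr
  have hr0 : 0 < r := Real.sqrt_pos.2 (by norm_num)
  have hr2 : r ^ 2 = 2 := Real.sq_sqrt (by norm_num)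
  have hr2' : r ≤ 2 := by nlinarith
  have hrs : ∀ s : ℕ, (r ^ s) ^ 2 = 2 ^ s := by
    intro s; rw [← pow_mul, mul_comm, pow_mul, hr2]
  set L : ℕ → ℝ := fun s => (q (s + 1) : ℝ) - q s with hL
  have hL1 : ∀ s, 1 ≤ L s := by
    intro s
    have : q s + 1 ≤ q (s + 1) := hq (Nat.lt_succ_self s)
    have : ((q s + 1 : ℕ) : ℝ) ≤ q (s + 1) := by exact_mod_cast this
    push_cast at this
    simp only [hL]; linarith
  set C : ℝ := L 0 + 2 with hC
  have hC0 : 0 < C := by have := hL1 0; linarith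
  set a : ℕ → ℝ := fun k => C * (r ^ (blk q k) / L (blk q k) + t k / r ^ (blk q k)) with ha
  have ha0 : ∀ k, 0 ≤ a k := by
    intro k
    have := hL1 (blk q k)
    have h3 := ht0 k
    simp only [ha]
    positivity
  have hablk : ∀ s k, k ∈ Finset.Ico (q s) (q (s + 1)) →
      a k = C * (r ^ s / L s + t k / r ^ s) := by
    intro s k hk
    rw [Finset.mem_Ico] at hk
    simp only [ha]
    rw [blk_eq q hq hk.1 hk.2]
  have hcard : ∀ s, ((Finset.Ico (q s) (q (s + 1))).card : ℝ) = L s := by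
    intro s
    rw [Nat.card_Ico, Nat.cast_sub (hq.monotone (Nat.le_succ s))]
  refine ⟨a, ha0, ?_, ?_⟩
  · -- square summability
    set B : ℕ → ℝ := fun s => 2 * C ^ 2 * ((2 : ℝ) ^ (s + 1) / L s +
      2 * ((∑ k ∈ Finset.range (q (s + 1)), t k ^ 2) / (2 : ℝ) ^ (s + 1))) with hB
    have hBs : Summable B := (hs1.add (hs2.mul_left 2)).mul_left _
    have hB0 : ∀ s, 0 ≤ B s := by
      intro s
      have := hL1 s
      have h3 : 0 ≤ ∑ k ∈ Finset.range (q (s + 1)), t k ^ 2 :=
        Finset.sum_nonneg fun k _ => sq_nonneg _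
      simp only [hB]
      positivity
    have hblock : ∀ s, ∑ k ∈ Finset.Ico (q s) (q (s + 1)), a k ^ 2 ≤ B s := by
      intro s
      have hLs := hL1 s
      have e1 : ∀ k ∈ Finset.Ico (q s) (q (s + 1)), a k ^ 2 ≤
          2 * C ^ 2 * (2 ^ s / L s ^ 2 + t k ^ 2 / 2 ^ s) := by
        intro k hk
        rw [hablk s k hk, mul_pow]
        have e2 : (r ^ s / L s + t k / r ^ s) ^ 2 ≤ 2 * (2 ^ s / L s ^ 2 + t k ^ 2 / 2 ^ s) := by
          have e3 : (2 : ℝ) ^ s / L s ^ 2 = (r ^ s / L s) ^ 2 := by rw [div_pow, hrs]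
          have e4 : t k ^ 2 / (2 : ℝ) ^ s = (t k / r ^ s) ^ 2 := by rw [div_pow, hrs]
          rw [e3, e4]
          nlinarith [sq_nonneg (r ^ s / L s - t k / r ^ s)]
        nlinarith [sq_nonneg C]
      refine (Finset.sum_le_sum e1).trans ?_
      rw [← Finset.mul_sum, Finset.sum_add_distrib, Finset.sum_const, nsmul_eq_mul, hcard s,
        ← Finset.sum_div]
      have e5 : L s * (2 ^ s / L s ^ 2) ≤ 2 ^ (s + 1) / L s := by
        have : L s * (2 ^ s / L s ^ 2) = 2 ^ s / L s := by field_simp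
        rw [this, pow_succ]
        have h6 : 0 ≤ (2 : ℝ) ^ s / L s := by positivity
        have : (2 : ℝ) ^ s * 2 / L s = 2 * (2 ^ s / L s) := by ring
        linarith
      have e6 : (∑ k ∈ Finset.Ico (q s) (q (s + 1)), t k ^ 2) / (2 : ℝ) ^ s ≤
          2 * ((∑ k ∈ Finset.range (q (s + 1)), t k ^ 2) / (2 : ℝ) ^ (s + 1)) := by
        have h7 : ∑ k ∈ Finset.Ico (q s) (q (s + 1)), t k ^ 2 ≤
            ∑ k ∈ Finset.range (q (s + 1)), t k ^ 2 := by
          apply Finset.sum_le_sum_of_subset_of_nonneg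
          · intro k hk
            rw [Finset.mem_Ico] at hk
            exact Finset.mem_range.2 hk.2
          · intro k _ _
            exact sq_nonneg _
        have h8 : 2 * ((∑ k ∈ Finset.range (q (s + 1)), t k ^ 2) / (2 : ℝ) ^ (s + 1)) =
            (∑ k ∈ Finset.range (q (s + 1)), t k ^ 2) / (2 : ℝ) ^ s := by
          rw [pow_succ]; field_simp
        rw [h8]
        gcongr
      simp only [hB]
      have h9 : 0 ≤ 2 * C ^ 2 := by positivity
      apply mul_le_mul_of_nonneg_left _ h9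
      linarith
    refine summable_of_sum_range_le (c := ∑' s, B s) (fun k => sq_nonneg _) fun n => ?_
    calc ∑ k ∈ Finset.range n, a k ^ 2 ≤ ∑ k ∈ Finset.range (q n), a k ^ 2 := by
          apply Finset.sum_le_sum_of_subset_of_nonneg
          · exact Finset.range_mono (hq.id_le n)
          · intro k _ _
            exact sq_nonneg _
      _ = ∑ s ∈ Finset.range n, ∑ k ∈ Finset.Ico (q s) (q (s + 1)), a k ^ 2 := by
          rw [blocks_sum (fun k => a k ^ 2) q hq.monotone n, hq0, Finset.range_eq_Ico]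
      _ ≤ ∑ s ∈ Finset.range n, B s := Finset.sum_le_sum fun s _ => hblock s
      _ ≤ ∑' s, B s := hBs.sum_le_tsum _ fun s _ => hB0 s
  · intro k
    obtain ⟨hk1, hk2⟩ := blk_spec q hq hq0 k
    have hak : a k = C * (r ^ (blk q k) / L (blk q k) + t k / r ^ (blk q k)) := rfl
    rcases Nat.eq_zero_or_pos (blk q k) with h1 | h1
    · -- block 0
      rw [h1] at hak
      have h2 : 1 ≤ a k := by
        rw [hak]
        have h3 := hL1 0
        have h4 := ht0 k
        simp only [pow_zero, div_one]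
        have h5 : 1 ≤ C * (1 / L 0) := by
          rw [mul_one_div, le_div_iff₀ (by linarith)]
          linarith
        nlinarith
      have h3 : a k ≤ ∑ j ∈ Finset.range (k + 1), a j :=
        Finset.single_le_sum (fun j _ => ha0 j) (Finset.self_mem_range_succ k)
      have h4 := ht1 k
      nlinarith
    · obtain ⟨s, hs⟩ : ∃ s, blk q k = s + 1 := ⟨blk q k - 1, by omega⟩
      rw [hs] at hak hk1 hk2
      have hLs := hL1 s
      have hLs1 := hL1 (s + 1)
      have hrs0 : 0 < r ^ s := by positivity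
      have h2 : C * r ^ s ≤ ∑ j ∈ Finset.range (k + 1), a j := by
        calc C * r ^ s = ∑ j ∈ Finset.Ico (q s) (q (s + 1)), C * (r ^ s / L s) := by
              rw [Finset.sum_const, nsmul_eq_mul, hcard s]
              field_simp
          _ ≤ ∑ j ∈ Finset.Ico (q s) (q (s + 1)), a j := by
              refine Finset.sum_le_sum fun j hj => ?_
              rw [hablk s j hj]
              have := ht0 j
              have h3 : 0 ≤ t j / r ^ s := by positivity
              nlinarith
          _ ≤ ∑ j ∈ Finset.range (k + 1), a j := by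
              apply Finset.sum_le_sum_of_subset_of_nonneg
              · intro j hj
                rw [Finset.mem_Ico] at hj
                rw [Finset.mem_range]
                omega
              · intro j _ _
                exact ha0 j
      have h3 : C * (t k / r ^ (s + 1)) ≤ a k := by
        rw [hak]
        have h4 : 0 ≤ r ^ (s + 1) / L (s + 1) := by positivity
        nlinarith
      have h5 : 0 ≤ C * (t k / r ^ (s + 1)) := by
        have := ht0 k
        positivity
      calc t k ≤ C * (t k / r ^ (s + 1)) * (C * r ^ s) := by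
            have h6 : C * (t k / r ^ (s + 1)) * (C * r ^ s) = C ^ 2 * t k / r := by
              rw [pow_succ]; field_simp
            rw [h6, le_div_iff₀ hr0]
            have h7 : r ≤ C ^ 2 := by
              have := hL1 0
              nlinarith
            have := ht0 k
            nlinarith
        _ ≤ a k * ∑ j ∈ Finset.range (k + 1), a j :=
            mul_le_mul h3 h2 (by positivity) (ha0 k)

/-! ### to the class `V` -/

theorem geo_aux (x : ℝ) (hx : 0 < x) (n : ℕ) :
    (x ≤ 2 ^ n → ∑ s ∈ Finset.range n, (if x ≤ 2 ^ (s + 1) then 1 / (2 : ℝ) ^ (s + 1) else 0) +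
      1 / 2 ^ n ≤ 2 / x) ∧
    (2 ^ n < x → ∑ s ∈ Finset.range n,
      (if x ≤ 2 ^ (s + 1) then 1 / (2 : ℝ) ^ (s + 1) else 0) = 0) := by
  induction n with
  | zero =>
    refine ⟨fun h => ?_, fun _ => by simp⟩
    simp only [Finset.range_zero, Finset.sum_empty, pow_zero] at h ⊢
    rw [le_div_iff₀ hx]
    linarith
  | succ n ih =>
    have h2 : (0 : ℝ) < 2 ^ n := by positivity
    have e : (2 : ℝ) ^ (n + 1) = 2 * 2 ^ n := by rw [pow_succ]; ring
    have e1 : 1 / (2 : ℝ) ^ (n + 1) + 1 / 2 ^ (n + 1) = 1 / 2 ^ n := by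
      rw [e]; field_simp; norm_num
    refine ⟨fun h => ?_, fun h => ?_⟩
    · rw [Finset.sum_range_succ, if_pos h, add_assoc, e1]
      rcases le_or_gt x (2 ^ n) with h3 | h3
      · exact ih.1 h3
      · rw [ih.2 h3, zero_add, div_le_div_iff₀ h2 hx]
        linarith
    · rw [Finset.sum_range_succ, if_neg (not_le.2 h), add_zero]
      exact ih.2 (by linarith)

theorem geo (x : ℝ) (hx : 0 < x) (n : ℕ) :
    x * ∑ s ∈ Finset.range n, (if x ≤ 2 ^ (s + 1) then 1 / (2 : ℝ) ^ (s + 1) else 0) ≤ 2 := by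
  rcases le_or_gt x (2 ^ n) with h | h
  · have h1 := (geo_aux x hx n).1 h
    have h2 : (0 : ℝ) ≤ 1 / 2 ^ n := by positivity
    rw [mul_comm, ← le_div_iff₀ hx]
    linarith
  · rw [(geo_aux x hx n).2 h]
    norm_num

theorem V_of_slow (t : ℕ → ℝ) (ht0 : ∀ k, 0 ≤ t k) (ht1 : ∀ k, t k ≤ 1) (h : Slow t) :
    TemlyakovV t := by
  obtain ⟨a0, ha00, has0, hat0⟩ := h
  -- enlarge the sequence
  set a : ℕ → ℝ := fun k => a0 k + 1 / ((k : ℝ) + 1) with ha
  have hinv : ∀ k : ℕ, 0 < 1 / ((k : ℝ) + 1) := fun k => by positivity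
  have hapos : ∀ k, 0 < a k := fun k => by
    have := ha00 k; have := hinv k; simp only [ha]; linarith
  have hle : ∀ k, a0 k ≤ a k := fun k => by have := hinv k; simp only [ha]; linarith
  have has : Summable fun k => a k ^ 2 := by
    have h1 : Summable fun k : ℕ => 1 / ((k : ℝ) + 1) ^ 2 := by
      have := (summable_nat_add_iff 1).2 (Real.summable_one_div_nat_pow.2 (by norm_num : 1 < 2))
      refine this.congr fun k => ?_
      push_cast
      rfl
    refine Summable.of_nonneg_of_le (fun k => sq_nonneg _) (fun k => ?_)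
      ((has0.add h1).mul_left 2)
    have h2 : 1 / ((k : ℝ) + 1) ^ 2 = (1 / ((k : ℝ) + 1)) ^ 2 := by rw [div_pow, one_pow]
    rw [h2]
    simp only [ha]
    nlinarith [sq_nonneg (a0 k - 1 / ((k : ℝ) + 1))]
  set T : ℕ → ℝ := fun n => ∑ j ∈ Finset.range n, a j with hT
  have hT0 : ∀ n, 0 ≤ T n := fun n => Finset.sum_nonneg fun j _ => (hapos j).le
  have hTpos : ∀ n, 0 < T (n + 1) := fun n =>
    Finset.sum_pos (fun j _ => hapos j) ⟨0, Finset.mem_range.2 (Nat.succ_pos n)⟩
  have hat : ∀ k, t k ≤ a k * T (k + 1) := fun k => by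
    refine (hat0 k).trans ?_
    refine mul_le_mul (hle k) (Finset.sum_le_sum fun j _ => hle j)
      (Finset.sum_nonneg fun j _ => ha00 j) (hapos k).le
  have hTtop : Tendsto T atTop atTop := by
    refine tendsto_atTop_mono (fun n => ?_) Real.tendsto_sum_range_one_div_nat_succ_atTop
    exact Finset.sum_le_sum fun j _ => by have := ha00 j; simp only [ha]; linarith
  have hex : ∀ s : ℕ, ∃ k, (2 : ℝ) ^ s < T (k + 1) ^ 2 := by
    intro s
    obtain ⟨n, hn⟩ := ((tendsto_add_atTop_iff_nat 1).2 hTtop).eventually_gt_atTop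
      ((2 : ℝ) ^ s) |>.exists
    refine ⟨n, ?_⟩
    have h1 : (1 : ℝ) ≤ 2 ^ s := one_le_pow₀ (by norm_num)
    nlinarith
  classical
  set Q : ℕ → ℕ := fun s => Nat.find (hex s) with hQ
  have hQ1 : ∀ s, (2 : ℝ) ^ s < T (Q s + 1) ^ 2 := fun s => Nat.find_spec (hex s)
  have hQ2 : ∀ s k, k < Q s → T (k + 1) ^ 2 ≤ 2 ^ s := fun s k hk =>
    not_lt.1 (Nat.find_min (hex s) hk)
  have hQ3 : ∀ s, T (Q s) ^ 2 ≤ 2 ^ s := by
    intro s
    rcases Nat.eq_zero_or_pos (Q s) with h1 | h1
    · rw [h1]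
      simp [hT]
    · obtain ⟨k, hk⟩ : ∃ k, Q s = k + 1 := ⟨Q s - 1, by omega⟩
      rw [hk]
      exact hQ2 s k (by omega)
  have hQm : Monotone Q := by
    refine monotone_nat_of_le_succ fun s => ?_
    refine Nat.find_min' (hex s) ?_
    have h1 := hQ1 (s + 1)
    have h2 : (2 : ℝ) ^ s ≤ 2 ^ (s + 1) := pow_le_pow_right₀ (by norm_num) (Nat.le_succ s)
    linarith
  set B : ℝ := ∑' k, a k ^ 2 with hB
  have hpart : ∀ u : Finset ℕ, ∑ k ∈ u, a k ^ 2 ≤ B := fun u =>
    has.sum_le_tsum _ fun k _ => sq_nonneg _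
  have hB0 : 0 ≤ B := by simpa using hpart ∅
  set A : ℝ := Real.sqrt B with hA
  have haA : ∀ k, a k ≤ A := fun k => by
    refine Real.le_sqrt_of_sq_le ?_
    simpa using hpart {k}
  set r : ℝ := Real.sqrt 2 with hr
  have hr0 : 0 < r := Real.sqrt_pos.2 (by norm_num)
  have hr2 : r ^ 2 = 2 := Real.sq_sqrt (by norm_num)
  have hr14 : 1.4142 < r := by
    rw [hr]; exact Real.lt_sqrt_of_sq_lt (by norm_num)
  have hrs : ∀ s : ℕ, (r ^ s) ^ 2 = 2 ^ s := by
    intro s; rw [← pow_mul, mul_comm, pow_mul, hr2]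
  have hrs0 : ∀ s : ℕ, 0 < r ^ s := fun s => by positivity
  -- the strictly monotone sequence
  set q : ℕ → ℕ := fun s => if s = 0 then 0 else Q s + s with hq
  have hqs : ∀ s, q (s + 1) = Q (s + 1) + (s + 1) := fun s => by simp [hq]
  refine ⟨q, by simp [hq], ?_, ?_, ?_⟩
  · refine strictMono_nat_of_lt_succ fun s => ?_
    rcases Nat.eq_zero_or_pos s with h1 | h1
    · subst h1
      rw [hqs 0]
      simp [hq]
    · obtain ⟨m, rfl⟩ : ∃ m, s = m + 1 := ⟨s - 1, by omega⟩
      rw [hqs, hqs]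
      have := hQm (Nat.le_succ (m + 1))
      simp only [Nat.succ_eq_add_one] at this
      omega
  · -- first sum
    set f0 : ℕ → ℝ := fun s => ∑ k ∈ Finset.Ico (Q s) (Q (s + 1)), a k ^ 2 with hf0
    have hf00 : ∀ s, 0 ≤ f0 s := fun s => Finset.sum_nonneg fun k _ => sq_nonneg _
    have hf0s : Summable f0 := by
      refine summable_of_sum_range_le (c := B) hf00 fun n => ?_
      rw [hf0, blocks_sum (fun k => a k ^ 2) Q hQm n]
      exact hpart _
    obtain ⟨s0, hs0⟩ : ∃ s0 : ℕ, ∀ s ≥ s0, 7 * A ≤ r ^ s :=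
      Filter.eventually_atTop.1
        ((tendsto_pow_atTop_atTop_of_one_lt (by linarith : 1 < r)).eventually_ge_atTop (7 * A))
    have hkey : ∀ s ≥ s0, (2 : ℝ) ^ (s + 1) / (((Q (s + 1) : ℝ) - Q s) + 1) ≤ 32 * f0 s := by
      intro s hs
      have h7 := hs0 s hs
      have h1 : r ^ (s + 1) ≤ T (Q (s + 1) + 1) := by
        have := hQ1 (s + 1)
        rw [← hrs] at this
        exact (pow_lt_pow_iff_left₀ (hrs0 _).le (hT0 _) (by norm_num)).1 this |>.le
      have h2 : T (Q s) ≤ r ^ s := by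
        have := hQ3 s
        rw [← hrs] at this
        exact (pow_le_pow_iff_left₀ (hT0 _) (hrs0 _).le (by norm_num)).1 this
      have h3 : T (Q (s + 1) + 1) = T (Q (s + 1)) + a (Q (s + 1)) := Finset.sum_range_succ _ _
      have h4 := haA (Q (s + 1))
      have h5 : ∑ k ∈ Finset.Ico (Q s) (Q (s + 1)), a k = T (Q (s + 1)) - T (Q s) :=
        Finset.sum_Ico_eq_sub _ (hQm (Nat.le_succ s))
      have h6 : r ^ (s + 1) = r * r ^ s := by rw [pow_succ]; ring
      have h8 : 1 / 4 * r ^ s ≤ ∑ k ∈ Finset.Ico (Q s) (Q (s + 1)), a k := by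
        rw [h5]
        have := hrs0 s
        nlinarith
      have h9 := sq_sum_le_card_mul_sum_sq (s := Finset.Ico (Q s) (Q (s + 1))) (f := a)
      have hc : ((Finset.Ico (Q s) (Q (s + 1))).card : ℝ) = (Q (s + 1) : ℝ) - Q s := by
        rw [Nat.card_Ico, Nat.cast_sub (hQm (Nat.le_succ s))]
      rw [hc] at h9
      have hc0 : (0 : ℝ) ≤ (Q (s + 1) : ℝ) - Q s := by
        rw [← hc]; positivity
      have h10 : (1 / 4 * r ^ s) ^ 2 ≤ (∑ k ∈ Finset.Ico (Q s) (Q (s + 1)), a k) ^ 2 :=
        pow_le_pow_left₀ (by have := hrs0 s; positivity) h8 2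
      have h11 : (1 / 4 * r ^ s) ^ 2 = 1 / 16 * 2 ^ s := by rw [mul_pow, hrs]; norm_num
      have h12 : (2 : ℝ) ^ s ≤ 16 * (((Q (s + 1) : ℝ) - Q s) * f0 s) := by
        have : (∑ k ∈ Finset.Ico (Q s) (Q (s + 1)), a k) ^ 2 ≤
          ((Q (s + 1) : ℝ) - Q s) * f0 s := h9
        linarith
      rw [div_le_iff₀ (by linarith), pow_succ]
      have := hf00 s
      nlinarith
    rw [← summable_nat_add_iff (s0 + 1)]
    refine Summable.of_nonneg_of_le (fun s => ?_) (fun s => ?_)
      (((summable_nat_add_iff (s0 + 1)).2 hf0s).mul_left 32)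
    · have e1 : s + (s0 + 1) = (s + s0) + 1 := by ring
      have h1 := hQm (Nat.le_succ (s + s0 + 1))
      have h2 : (Q (s + s0 + 1) : ℝ) ≤ Q (s + s0 + 1 + 1) := by exact_mod_cast h1
      rw [e1, hqs, hqs]
      push_cast
      apply div_nonneg (by positivity)
      linarith
    · have e1 : s + (s0 + 1) = (s + s0) + 1 := by ring
      rw [e1]
      have h1 := hkey (s + s0 + 1) (by omega)
      rw [hqs, hqs]
      push_cast
      have e2 : (Q (s + s0 + 1 + 1) : ℝ) + ((s : ℝ) + s0 + 1 + 1) -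
          ((Q (s + s0 + 1) : ℝ) + ((s : ℝ) + s0 + 1)) =
          ((Q (s + s0 + 1 + 1) : ℝ) - Q (s + s0 + 1)) + 1 := by ring
      rw [e2]
      exact h1
  · -- second sum
    set g : ℕ → ℝ := fun k => a k ^ 2 * T (k + 1) ^ 2 with hg
    have hg0 : ∀ k, 0 ≤ g k := fun k => by simp only [hg]; positivity
    have htg : ∀ k, t k ^ 2 ≤ g k := fun k => by
      simp only [hg]
      rw [← mul_pow]
      exact pow_le_pow_left₀ (ht0 k) (hat k) 2
    have hmain : Summable fun s : ℕ => (∑ k ∈ Finset.range (Q (s + 1)), g k) / (2 : ℝ) ^ (s + 1) := by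
      refine summable_of_sum_range_le (c := 2 * B)
        (fun s => div_nonneg (Finset.sum_nonneg fun k _ => hg0 k) (by positivity)) fun n => ?_
      calc ∑ s ∈ Finset.range n, (∑ k ∈ Finset.range (Q (s + 1)), g k) / (2 : ℝ) ^ (s + 1)
          ≤ ∑ s ∈ Finset.range n, ∑ k ∈ Finset.range (Q n),
            g k * (if T (k + 1) ^ 2 ≤ 2 ^ (s + 1) then 1 / (2 : ℝ) ^ (s + 1) else 0) := by
            refine Finset.sum_le_sum fun s hs => ?_
            rw [Finset.mem_range] at hs
            rw [Finset.sum_div]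
            have hsub : Finset.range (Q (s + 1)) ⊆ Finset.range (Q n) :=
              Finset.range_mono (hQm (by omega))
            refine le_trans (Finset.sum_le_sum fun k hk => ?_)
              (Finset.sum_le_sum_of_subset_of_nonneg hsub fun k _ _ => ?_)
            · rw [Finset.mem_range] at hk
              rw [if_pos (hQ2 (s + 1) k hk), mul_one_div]
            · apply mul_nonneg (hg0 k)
              split_ifs
              · positivity
              · exact le_rfl
        _ = ∑ k ∈ Finset.range (Q n), a k ^ 2 * (T (k + 1) ^ 2 * ∑ s ∈ Finset.range n,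
            (if T (k + 1) ^ 2 ≤ 2 ^ (s + 1) then 1 / (2 : ℝ) ^ (s + 1) else 0)) := by
            rw [Finset.sum_comm]
            refine Finset.sum_congr rfl fun k _ => ?_
            rw [← Finset.mul_sum]
            simp only [hg]
            ring
        _ ≤ ∑ k ∈ Finset.range (Q n), a k ^ 2 * 2 := by
            refine Finset.sum_le_sum fun k _ => ?_
            refine mul_le_mul_of_nonneg_left (geo _ ?_ n) (sq_nonneg _)
            have := hTpos k
            positivity
        _ ≤ 2 * B := by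
            rw [← Finset.sum_mul, mul_comm]
            exact mul_le_mul_of_nonneg_left (hpart _) (by norm_num)
    have hextra : Summable fun s : ℕ => ((s : ℝ) + 1) / (2 : ℝ) ^ (s + 1) := by
      have h1 : Summable fun n : ℕ => ((n : ℝ) ^ 1) * (1 / 2 : ℝ) ^ n :=
        summable_pow_mul_geometric_of_norm_lt_one 1 (by norm_num)
      have h2 := (summable_nat_add_iff 1).2 h1
      refine h2.congr fun n => ?_
      push_cast
      rw [pow_one, div_pow, one_pow]
      ring
    refine Summable.of_nonneg_of_le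
      (fun s => div_nonneg (Finset.sum_nonneg fun k _ => sq_nonneg _) (by positivity))
      (fun s => ?_) (hmain.add hextra)
    rw [← add_div]
    apply div_le_div_of_nonneg_right _ (by positivity)
    rw [hqs, Finset.sum_range_add]
    apply add_le_add
    · exact Finset.sum_le_sum fun k _ => htg k
    · calc ∑ x ∈ Finset.range (s + 1), t (Q (s + 1) + x) ^ 2
          ≤ ∑ x ∈ Finset.range (s + 1), (1 : ℝ) := by
            refine Finset.sum_le_sum fun x _ => ?_
            exact pow_le_one₀ (ht0 _) (ht1 _)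
        _ = (s : ℝ) + 1 := by simp

end ClassV

theorem slow_iff_temlyakovV (t : ℕ → ℝ) (ht0 : ∀ k, 0 ≤ t k) (ht1 : ∀ k, t k ≤ 1) :
    Slow t ↔ TemlyakovV t :=
  ⟨ClassV.V_of_slow t ht0 ht1, ClassV.slow_of_V t ht0 ht1⟩

end TH934.WGA
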