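import Pool.Agent.TH934.WGA.Plan

/-!
# Norm, bound and orthogonality of the block configuration
-/

namespace TH934.WGA

open MeasureTheory Filter Topology Real
open scoped RealInnerProductSpace

variable {X Y : Type*} [NormedAddCommGroup X] [InnerProductSpace ℝ X]
  [NormedAddCommGroup Y] [InnerProductSpace ℝ Y]

theorem conf_inner (T : X →ₗ[ℝ] X →ₗ[ℝ] Y) (hT : ∀ u v u' v' : X, ⟪T u v, T u' v'⟫ = ⟪u, u'⟫ * ⟪v, v'⟫)
    (U V : ℕ → X) (x : ℕ → ℝ) (n : ℕ) (p q s : ℝ) (u v : X) :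
    ⟪conf T U V x n p q s, T u v⟫ = ∑ i ∈ Finset.range n, x i * (⟪U i, u⟫ * ⟪V i, v⟫)
      + p * (⟪U n, u⟫ * ⟪V n, v⟫) + q * (⟪U n, u⟫ * ⟪V (n + 1), v⟫)
      + s * (⟪U (n + 1), u⟫ * ⟪V (n + 1), v⟫) := by
  unfold conf
  simp only [inner_add_left, sum_inner, real_inner_smul_left, hT]

theorem conf_norm_sq (T : X →ₗ[ℝ] X →ₗ[ℝ] Y) (hT : ∀ u v u' v' : X, ⟪T u v, T u' v'⟫ = ⟪u, u'⟫ * ⟪v, v'⟫)
    (U V : ℕ → X) (hU : Orthonormal ℝ U) (hV : Orthonormal ℝ V) (x : ℕ → ℝ) (n : ℕ) (p q s : ℝ) :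
    ‖conf T U V x n p q s‖ ^ 2 = ∑ i ∈ Finset.range n, x i ^ 2 + p ^ 2 + q ^ 2 + s ^ 2 := by
  have hu : ∀ i j, ⟪U i, U j⟫ = if i = j then (1 : ℝ) else 0 := orthonormal_iff_ite.mp hU
  have hv : ∀ i j, ⟪V i, V j⟫ = if i = j then (1 : ℝ) else 0 := orthonormal_iff_ite.mp hV
  have h1 : ∀ j ∈ Finset.range n, ⟪conf T U V x n p q s, T (U j) (V j)⟫ = x j := by
    intro j hj
    have hj' := Finset.mem_range.1 hj
    rw [conf_inner T hT]
    simp only [hu, hv]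
    rw [Finset.sum_eq_single j (fun i _ hi => by simp [hi]) (fun h => absurd hj h)]
    simp [show ¬ n = j by omega, show ¬ n + 1 = j by omega]
  have h2 : ⟪conf T U V x n p q s, T (U n) (V n)⟫ = p := by
    rw [conf_inner T hT]
    simp only [hu, hv]
    rw [Finset.sum_eq_zero (fun i hi => by
      simp [show ¬ i = n by have := Finset.mem_range.1 hi; omega])]
    simp
  have h3 : ⟪conf T U V x n p q s, T (U n) (V (n + 1))⟫ = q := by
    rw [conf_inner T hT]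
    simp only [hu, hv]
    rw [Finset.sum_eq_zero (fun i hi => by
      simp [show ¬ i = n by have := Finset.mem_range.1 hi; omega])]
    simp
  have h4 : ⟪conf T U V x n p q s, T (U (n + 1)) (V (n + 1))⟫ = s := by
    rw [conf_inner T hT]
    simp only [hu, hv]
    rw [Finset.sum_eq_zero (fun i hi => by
      simp [show ¬ i = n + 1 by have := Finset.mem_range.1 hi; omega])]
    simp
  have h5 : ⟪conf T U V x n p q s, conf T U V x n p q s⟫ =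
      ∑ j ∈ Finset.range n, x j * ⟪conf T U V x n p q s, T (U j) (V j)⟫
      + p * ⟪conf T U V x n p q s, T (U n) (V n)⟫
      + q * ⟪conf T U V x n p q s, T (U n) (V (n + 1))⟫
      + s * ⟪conf T U V x n p q s, T (U (n + 1)) (V (n + 1))⟫ := by
    conv_lhs => rw [show conf T U V x n p q s = ∑ i ∈ Finset.range n, x i • T (U i) (V i)
      + p • T (U n) (V n) + q • T (U n) (V (n + 1)) + s • T (U (n + 1)) (V (n + 1)) from rfl]
    rw [inner_add_right, inner_add_right, inner_add_right, inner_sum]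
    simp only [real_inner_smul_right]
    rfl
  rw [← real_inner_self_eq_norm_sq, h5, Finset.sum_congr rfl fun j hj => by rw [h1 j hj], h2, h3, h4]
  simp only [sq]

theorem conf_inner_le (T : X →ₗ[ℝ] X →ₗ[ℝ] Y) (hT : ∀ u v u' v' : X, ⟪T u v, T u' v'⟫ = ⟪u, u'⟫ * ⟪v, v'⟫)
    (U V : ℕ → X) (hU : Orthonormal ℝ U) (hV : Orthonormal ℝ V) (x : ℕ → ℝ) (n : ℕ) (p q s M : ℝ)
    (hM : 0 ≤ M) (hx : ∀ i < n, |x i| ≤ M) (hp : p ^ 2 + q ^ 2 + s ^ 2 ≤ M ^ 2) (u v : X) :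
    |⟪conf T U V x n p q s, T u v⟫| ≤ M * ‖u‖ * ‖v‖ := by
  rw [conf_inner T hT]
  have hbu := hU.sum_inner_products_le u (s := Finset.range (n + 2))
  have hbv := hV.sum_inner_products_le v (s := Finset.range (n + 2))
  rw [Finset.sum_range_succ, Finset.sum_range_succ] at hbu hbv
  simp only [Real.norm_eq_abs, sq_abs] at hbu hbv
  set a := ⟪U n, u⟫
  set a' := ⟪U (n + 1), u⟫
  set b := ⟪V n, v⟫
  set b' := ⟪V (n + 1), v⟫
  set A2 := ∑ i ∈ Finset.range n, ⟪U i, u⟫ ^ 2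
  set B2 := ∑ i ∈ Finset.range n, ⟪V i, v⟫ ^ 2
  have hA2 : 0 ≤ A2 := Finset.sum_nonneg fun i _ => sq_nonneg _
  have hB2 : 0 ≤ B2 := Finset.sum_nonneg fun i _ => sq_nonneg _
  set S1 := ∑ i ∈ Finset.range n, x i * (⟪U i, u⟫ * ⟪V i, v⟫)
  have hS1 : |S1| ≤ M * (√A2 * √B2) := by
    apply abs_le_of_sq_le_sq _ (by positivity)
    have h1 : S1 ^ 2 ≤ (∑ i ∈ Finset.range n, (x i * ⟪U i, u⟫) ^ 2) * B2 := by
      have := Finset.sum_mul_sq_le_sq_mul_sq (Finset.range n) (fun i => x i * ⟪U i, u⟫)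
        (fun i => ⟪V i, v⟫)
      have h2 : S1 = ∑ i ∈ Finset.range n, x i * ⟪U i, u⟫ * ⟪V i, v⟫ :=
        Finset.sum_congr rfl fun i _ => by ring
      rw [h2]
      exact this
    have h2 : ∑ i ∈ Finset.range n, (x i * ⟪U i, u⟫) ^ 2 ≤ M ^ 2 * A2 := by
      rw [Finset.mul_sum]
      refine Finset.sum_le_sum fun i hi => ?_
      rw [mul_pow]
      refine mul_le_mul_of_nonneg_right ?_ (sq_nonneg _)
      rw [← sq_abs]
      exact pow_le_pow_left₀ (abs_nonneg _) (hx i (Finset.mem_range.1 hi)) 2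
    calc S1 ^ 2 ≤ (∑ i ∈ Finset.range n, (x i * ⟪U i, u⟫) ^ 2) * B2 := h1
      _ ≤ M ^ 2 * A2 * B2 := mul_le_mul_of_nonneg_right h2 hB2
      _ = (M * (√A2 * √B2)) ^ 2 := by
        rw [mul_pow, mul_pow, Real.sq_sqrt hA2, Real.sq_sqrt hB2]; ring
  have hS2 : |p * (a * b) + q * (a * b') + s * (a' * b')| ≤
      M * (√(a ^ 2 + a' ^ 2) * √(b ^ 2 + b' ^ 2)) := by
    apply abs_le_of_sq_le_sq _ (by positivity)
    rw [mul_pow, mul_pow, Real.sq_sqrt (by positivity), Real.sq_sqrt (by positivity)]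
    have h1 : (p * (a * b) + q * (a * b') + s * (a' * b')) ^ 2 ≤
        (p ^ 2 + q ^ 2 + s ^ 2) * ((a * b) ^ 2 + (a * b') ^ 2 + (a' * b') ^ 2) := by
      nlinarith [sq_nonneg (p * (a * b') - q * (a * b)), sq_nonneg (p * (a' * b') - s * (a * b)),
        sq_nonneg (q * (a' * b') - s * (a * b'))]
    have h2 : (p ^ 2 + q ^ 2 + s ^ 2) * ((a * b) ^ 2 + (a * b') ^ 2 + (a' * b') ^ 2) ≤
        M ^ 2 * ((a ^ 2 + a' ^ 2) * (b ^ 2 + b' ^ 2)) := by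
      refine mul_le_mul hp ?_ (by positivity) (by positivity)
      nlinarith [sq_nonneg (a' * b)]
    exact h1.trans h2
  have hfin : √A2 * √B2 + √(a ^ 2 + a' ^ 2) * √(b ^ 2 + b' ^ 2) ≤ ‖u‖ * ‖v‖ := by
    have h1 : |√A2 * √B2 + √(a ^ 2 + a' ^ 2) * √(b ^ 2 + b' ^ 2)| ≤ ‖u‖ * ‖v‖ := by
      apply abs_le_of_sq_le_sq _ (by positivity)
      have e1 := Real.sq_sqrt hA2
      have e2 := Real.sq_sqrt hB2
      have e3 := Real.sq_sqrt (show 0 ≤ a ^ 2 + a' ^ 2 by positivity)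
      have e4 := Real.sq_sqrt (show 0 ≤ b ^ 2 + b' ^ 2 by positivity)
      have h2 : (√A2 * √B2 + √(a ^ 2 + a' ^ 2) * √(b ^ 2 + b' ^ 2)) ^ 2 ≤
          (A2 + (a ^ 2 + a' ^ 2)) * (B2 + (b ^ 2 + b' ^ 2)) := by
        rw [← e1, ← e2, ← e3, ← e4]
        simp only [Real.sqrt_sq (Real.sqrt_nonneg _)]
        nlinarith [sq_nonneg (√A2 * √(b ^ 2 + b' ^ 2) - √(a ^ 2 + a' ^ 2) * √B2)]
      rw [mul_pow]
      refine h2.trans (mul_le_mul (by linarith) (by linarith) (by positivity) (by positivity))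
    exact (le_abs_self _).trans h1
  calc |S1 + p * (a * b) + q * (a * b') + s * (a' * b')|
      = |S1 + (p * (a * b) + q * (a * b') + s * (a' * b'))| := by congr 1; ring
    _ ≤ |S1| + |p * (a * b) + q * (a * b') + s * (a' * b')| := abs_add_le _ _
    _ ≤ M * (√A2 * √B2) + M * (√(a ^ 2 + a' ^ 2) * √(b ^ 2 + b' ^ 2)) := add_le_add hS1 hS2
    _ = M * (√A2 * √B2 + √(a ^ 2 + a' ^ 2) * √(b ^ 2 + b' ^ 2)) := by ring
    _ ≤ M * (‖u‖ * ‖v‖) := mul_le_mul_of_nonneg_left hfin hM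
    _ = M * ‖u‖ * ‖v‖ := by ring

theorem conf_orthL (T : X →ₗ[ℝ] X →ₗ[ℝ] Y) (hT : ∀ u v u' v' : X, ⟪T u v, T u' v'⟫ = ⟪u, u'⟫ * ⟪v, v'⟫)
    (U V : ℕ → X) (x : ℕ → ℝ) (n : ℕ) (p q s : ℝ) (w : X) (hw : ∀ i, ⟪U i, w⟫ = 0) (v : X) :
    ⟪conf T U V x n p q s, T w v⟫ = 0 := by
  rw [conf_inner T hT]
  simp [hw]

theorem conf_orthR (T : X →ₗ[ℝ] X →ₗ[ℝ] Y) (hT : ∀ u v u' v' : X, ⟪T u v, T u' v'⟫ = ⟪u, u'⟫ * ⟪v, v'⟫)
    (U V : ℕ → X) (x : ℕ → ℝ) (n : ℕ) (p q s : ℝ) (w : X) (hw : ∀ i, ⟪V i, w⟫ = 0) (u : X) :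
    ⟪conf T U V x n p q s, T u w⟫ = 0 := by
  rw [conf_inner T hT]
  simp [hw]

end TH934.WGA
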