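import Mathlib

/-!
# The weak greedy algorithm with the bilinear dictionary: definitions
-/

namespace TH934.WGA

open MeasureTheory Filter Topology
open scoped RealInnerProductSpace

/-- The real Hilbert space `L²([0,1])`. -/
abbrev E : Type := Lp ℝ 2 (volume : Measure unitInterval)

/-- The real Hilbert space `L²([0,1]²)` (the Lebesgue measure of the square is the product
measure). -/
abbrev H : Type := Lp ℝ 2 (volume : Measure (unitInterval × unitInterval))

/-- The bilinear dictionary `Π₂`: the functions `u(x₁) v(x₂)` of norm one in `L²([0,1]²)`, with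
`u, v ∈ L²([0,1])`. -/
def Pi2 : Set H :=
  {g | ‖g‖ = 1 ∧ ∃ u v : E, ∀ᵐ z : unitInterval × unitInterval, g z = u z.1 * v z.2}

/-- `(f, φ)` is a realization of the weak greedy algorithm with weakness sequence `t` with respect
to the dictionary `D`. Here `f 0` is the function one starts from, `t m` is the weakness parameter
of step `m + 1` and `φ m` is the element of the dictionary that step `m + 1` chooses. -/
structure IsWGA {F : Type*} [NormedAddCommGroup F] [InnerProductSpace ℝ F] (D : Set F)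
    (t : ℕ → ℝ) (f φ : ℕ → F) : Prop where
  mem : ∀ m, φ m ∈ D
  greedy : ∀ m, t m * (⨆ g : D, |⟪f m, (g : F)⟫|) ≤ |⟪f m, φ m⟫|
  step : ∀ m, f (m + 1) = f m - ⟪f m, φ m⟫ • φ m

/-- The weak greedy algorithm with weakness sequence `t` converges with respect to `D`: for every
starting element and every realization the remainders tend to `0`. -/
def Converges {F : Type*} [NormedAddCommGroup F] [InnerProductSpace ℝ F] (D : Set F)
    (t : ℕ → ℝ) : Prop :=
  ∀ f φ : ℕ → F, IsWGA D t f φ → Tendsto (fun m => ‖f m‖) atTop (𝓝 0)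

/-- `t k ≤ a k * ∑_{j ≤ k} a j` for some square summable nonnegative sequence `a`. -/
def Slow (t : ℕ → ℝ) : Prop :=
  ∃ a : ℕ → ℝ, (∀ k, 0 ≤ a k) ∧ Summable (fun k => a k ^ 2) ∧
    ∀ k, t k ≤ a k * ∑ j ∈ Finset.range (k + 1), a j

/-- Temlyakov's class `V` (for sequences indexed from `0`): there are `0 = q 0 < q 1 < …` with
`∑_{s ≥ 1} 2^s / (q s - q (s-1)) < ∞` and `∑_{s ≥ 1} 2^{-s} ∑_{k < q s} (t k)² < ∞`. -/
def TemlyakovV (t : ℕ → ℝ) : Prop :=
  ∃ q : ℕ → ℕ, q 0 = 0 ∧ StrictMono q ∧
    Summable (fun s : ℕ => (2 : ℝ) ^ (s + 1) / ((q (s + 1) : ℝ) - (q s : ℝ))) ∧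
    Summable (fun s : ℕ => (∑ k ∈ Finset.range (q (s + 1)), t k ^ 2) / (2 : ℝ) ^ (s + 1))

end TH934.WGA
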