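import Pool.Agent.TH934.WGA.Plan

/-!
# The span of the bilinear dictionary is dense
-/

namespace TH934.WGA

open MeasureTheory Filter Topology Real
open scoped RealInnerProductSpace

theorem Dense_rect (f : H) (hf : ∀ g ∈ Pi2, ⟪g, f⟫ = 0) {A B : Set unitInterval}
    (hA : MeasurableSet A) (hB : MeasurableSet B) :
    ∫ z in A ×ˢ B, f z = 0 := by
  have hAB : MeasurableSet (A ×ˢ B) := hA.prod hB
  have hfin : (volume : Measure (unitInterval × unitInterval)) (A ×ˢ B) ≠ ⊤ := measure_ne_top _ _
  have hfA : (volume : Measure unitInterval) A ≠ ⊤ := measure_ne_top _ _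
  have hfB : (volume : Measure unitInterval) B ≠ ⊤ := measure_ne_top _ _
  let g : H := indicatorConstLp 2 hAB hfin (1 : ℝ)
  have hin : ⟪g, f⟫ = ∫ z in A ×ˢ B, f z := L2.inner_indicatorConstLp_one hAB hfin f
  rw [← hin]
  by_cases hg : ‖g‖ = 0
  · rw [norm_eq_zero.1 hg, inner_zero_left]
  · have hmem : (‖g‖⁻¹ • g) ∈ Pi2 := by
      refine ⟨?_, ?_⟩
      · rw [norm_smul, norm_inv, norm_norm]
        exact inv_mul_cancel₀ hg
      · let u : E := ‖g‖⁻¹ • indicatorConstLp 2 hA hfA (1 : ℝ)
        let v : E := indicatorConstLp 2 hB hfB (1 : ℝ)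
        refine ⟨u, v, ?_⟩
        have h1 : ∀ᵐ z : unitInterval × unitInterval, (‖g‖⁻¹ • g : H) z = ‖g‖⁻¹ • g z :=
          Lp.coeFn_smul _ _
        have h2 : ∀ᵐ z : unitInterval × unitInterval,
            g z = (A ×ˢ B).indicator (fun _ => (1 : ℝ)) z := indicatorConstLp_coeFn
        have h3 : ∀ᵐ x : unitInterval, u x = ‖g‖⁻¹ • (A.indicator (fun _ => (1 : ℝ)) x) := by
          have h4 : ∀ᵐ x : unitInterval, u x =
              ‖g‖⁻¹ • (indicatorConstLp 2 hA hfA (1 : ℝ) : E) x := Lp.coeFn_smul _ _
          have h5 : ∀ᵐ x : unitInterval, (indicatorConstLp 2 hA hfA (1 : ℝ) : E) x =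
              A.indicator (fun _ => (1 : ℝ)) x := indicatorConstLp_coeFn
          filter_upwards [h4, h5] with x hx hx'
          rw [hx, hx']
        have h6 : ∀ᵐ x : unitInterval, v x = B.indicator (fun _ => (1 : ℝ)) x :=
          indicatorConstLp_coeFn
        have h7 : ∀ᵐ z : unitInterval × unitInterval,
            u z.1 = ‖g‖⁻¹ • (A.indicator (fun _ => (1 : ℝ)) z.1) :=
          Measure.quasiMeasurePreserving_fst.ae h3
        have h8 : ∀ᵐ z : unitInterval × unitInterval,
            v z.2 = B.indicator (fun _ => (1 : ℝ)) z.2 :=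
          Measure.quasiMeasurePreserving_snd.ae h6
        filter_upwards [h1, h2, h7, h8] with z hz1 hz2 hz3 hz4
        rw [hz1, hz2, hz3, hz4]
        by_cases ha : z.1 ∈ A <;> by_cases hb : z.2 ∈ B <;>
          simp [Set.indicator, Set.mem_prod, ha, hb]
    have h9 := hf _ hmem
    rw [real_inner_smul_left] at h9
    exact (mul_eq_zero.1 h9).resolve_left (inv_ne_zero hg)

theorem Dense_zero (f : H) (hf : ∀ g ∈ Pi2, ⟪g, f⟫ = 0) : f = 0 := by
  have hint : Integrable (fun z => f z) (volume : Measure (unitInterval × unitInterval)) :=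
    (Lp.memLp f).integrable one_le_two
  have hall : ∀ S : Set (unitInterval × unitInterval), MeasurableSet S → ∫ z in S, f z = 0 := by
    intro S hS
    induction S, hS using MeasurableSpace.induction_on_inter generateFrom_prod.symm
      isPiSystem_prod with
    | empty => simp
    | basic S hS =>
      obtain ⟨A, hA, B, hB, rfl⟩ := hS
      exact Dense_rect f hf hA hB
    | compl S hS ih =>
      have h1 := integral_add_compl hS hint
      have h2 : ∫ z, f z = 0 := by
        have h3 := Dense_rect f hf (A := Set.univ) (B := Set.univ) MeasurableSet.univ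
          MeasurableSet.univ
        rwa [Set.univ_prod_univ, setIntegral_univ] at h3
      rw [ih, h2, zero_add] at h1
      exact h1
    | iUnion S hd hS ih =>
      rw [integral_iUnion hS hd hint.integrableOn]
      simp only [ih, tsum_zero]
  have h0 := hint.ae_eq_zero_of_forall_setIntegral_eq_zero fun S hS _ => hall S hS
  exact (Lp.eq_zero_iff_ae_eq_zero).2 h0

theorem span_Pi2 : (Submodule.span ℝ Pi2).topologicalClosure = ⊤ := by
  rw [Submodule.topologicalClosure_eq_top_iff, Submodule.eq_bot_iff]
  intro f hf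
  apply Dense_zero
  intro g hg
  exact (Submodule.mem_orthogonal _ _).1 hf g (Submodule.subset_span hg)

end TH934.WGA
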