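import Pool.Agent.TH934.WGA.Plan

/-!
# Complete blocks form a state of phase 1 (job WGA-K3)
-/

namespace TH934.WGA

open MeasureTheory Filter Topology Real
open scoped RealInnerProductSpace

variable {X Y : Type*} [NormedAddCommGroup X] [InnerProductSpace ℝ X]
  [NormedAddCommGroup Y] [InnerProductSpace ℝ Y]

theorem inv_of_diag (T : X →ₗ[ℝ] X →ₗ[ℝ] Y) (e' : ℕ → X) (U V : ℕ → X) (hU : Frame e' U) (hV : Frame e' V)
    (x : ℕ → ℝ) (m : ℕ) (M : ℝ) (hM : 0 < M) (hx : ∀ i < m + 1, 2 / 5 * M ≤ x i ∧ x i ≤ M) :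
    ∃ M' ≤ M, Inv T e' (∑ i ∈ Finset.range (m + 1), x i • T (U i) (V i)) M'
      (∑ i ∈ Finset.range (m + 1), x i) := by
  classical
  obtain ⟨i0, hi0, hmax⟩ := Finset.exists_max_image (Finset.range (m + 1)) x ⟨0, by simp⟩
  rw [Finset.mem_range] at hi0
  have hmax' : ∀ i < m + 1, x i ≤ x i0 := fun i hi => hmax i (Finset.mem_range.2 hi)
  have hM' : 0 < x i0 := by
    have := (hx i0 hi0).1
    have h2 : (0 : ℝ) < 2 / 5 * M := by positivity
    linarith
  have hle : x i0 ≤ M := (hx i0 hi0).2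
  set σ : Equiv.Perm ℕ := Equiv.swap i0 m with hσ
  have hσlt : ∀ i < m + 1, σ i < m + 1 := by
    intro i hi
    rw [hσ, Equiv.swap_apply_def]
    split_ifs <;> omega
  have hσσ : ∀ i, σ (σ i) = i := by
    intro i
    rw [hσ, Equiv.swap_apply_self]
  have hσm : σ m = i0 := by rw [hσ, Equiv.swap_apply_right]
  have hsumY : ∑ i ∈ Finset.range (m + 1), x (σ i) • T (U (σ i)) (V (σ i)) =
      ∑ i ∈ Finset.range (m + 1), x i • T (U i) (V i) := by
    refine Finset.sum_nbij' (fun i => σ i) (fun i => σ i) ?_ ?_ ?_ ?_ ?_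
    · intro i hi
      exact Finset.mem_range.2 (hσlt i (Finset.mem_range.1 hi))
    · intro i hi
      exact Finset.mem_range.2 (hσlt i (Finset.mem_range.1 hi))
    · intro i _; exact hσσ i
    · intro i _; exact hσσ i
    · intro i _; rfl
  have hsumR : ∑ i ∈ Finset.range (m + 1), x (σ i) = ∑ i ∈ Finset.range (m + 1), x i := by
    refine Finset.sum_nbij' (fun i => σ i) (fun i => σ i) ?_ ?_ ?_ ?_ ?_
    · intro i hi
      exact Finset.mem_range.2 (hσlt i (Finset.mem_range.1 hi))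
    · intro i hi
      exact Finset.mem_range.2 (hσlt i (Finset.mem_range.1 hi))
    · intro i _; exact hσσ i
    · intro i _; exact hσσ i
    · intro i _; rfl
  refine ⟨x i0, hle, Or.inl ⟨fun i => U (σ i), fun i => V (σ i), fun i => x (σ i), m, x i0, 0,
    ⟨hU.on.comp _ σ.injective, fun i j => hU.orth _ j⟩,
    ⟨hV.on.comp _ σ.injective, fun i j => hV.orth _ j⟩, hM', ?_, le_rfl, by positivity, ?_, le_rfl,
    ?_, ?_⟩⟩
  · intro i hi
    have h1 := hσlt i (by omega)
    refine ⟨?_, hmax' _ h1⟩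
    have h2 := (hx _ h1).1
    linarith
  · simp
  · rw [← hsumY, Finset.sum_range_succ]
    unfold conf
    simp only [Real.cos_zero, Real.sin_zero, mul_one, mul_zero, zero_smul, add_zero]
    rw [hσm]
  · rw [← hsumR, Finset.sum_range_succ, hσm]
    simp

end TH934.WGA
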