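import Pool.Agent.TH934.WGA.Plan

/-!
# The rotation process: iteration of the step (job 4224, written by helper293)
-/

namespace TH934.WGA

open MeasureTheory Filter Topology Real
open scoped RealInnerProductSpace

variable {X Y : Type*} [NormedAddCommGroup X] [InnerProductSpace ℝ X]
  [NormedAddCommGroup Y] [InnerProductSpace ℝ Y]

/-- the initial state -/
lemma start_state (T : X →ₗ[ℝ] X →ₗ[ℝ] Y)
    (hT : ∀ u v u' v' : X, ⟪T u v, T u' v'⟫ = ⟪u, u'⟫ * ⟪v, v'⟫)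
    (e' : ℕ → X) (e : ℕ → X) (he : Frame e' e) (N : ℕ) (hN : 1 ≤ N) :
    ∃ g : Y, Inv T e' g (1 / √N) (√N) ∧ ‖g‖ ^ 2 = 1 := by
  have hN0 : (0 : ℝ) < N := by exact_mod_cast hN
  have hs : 0 < √(N : ℝ) := Real.sqrt_pos.2 hN0
  have hs2 : √(N : ℝ) * √(N : ℝ) = N := Real.mul_self_sqrt hN0.le
  obtain ⟨n, rfl⟩ : ∃ n, N = n + 1 := ⟨N - 1, by omega⟩
  set c : ℝ := 1 / √((n + 1 : ℕ) : ℝ) with hc
  have hc0 : 0 < c := by positivity
  refine ⟨∑ i ∈ Finset.range (n + 1), c • T (e i) (e i), ?_, ?_⟩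
  · left
    refine ⟨e, e, fun _ => c, n, c, 0, he, he, hc0, fun i _ => ⟨by linarith, le_rfl⟩, le_rfl,
      by positivity, by linarith, le_rfl, ?_, ?_⟩
    · unfold conf
      rw [Finset.sum_range_succ, Real.cos_zero, Real.sin_zero]
      simp
    · rw [Finset.sum_const, Finset.card_range, nsmul_eq_mul]
      have : c * (((n + 1 : ℕ) : ℝ)) = √((n + 1 : ℕ) : ℝ) := by
        rw [hc, one_div_mul_eq_div, div_eq_iff hs.ne', hs2]
      rw [← this]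
      push_cast
      ring
  · rw [← real_inner_self_eq_norm_sq, sum_inner]
    have h1 : ∀ i ∈ Finset.range (n + 1),
        ⟪c • T (e i) (e i), ∑ j ∈ Finset.range (n + 1), c • T (e j) (e j)⟫ = c ^ 2 := by
      intro i hi
      rw [inner_sum]
      rw [Finset.sum_eq_single i]
      · rw [real_inner_smul_left, real_inner_smul_right, hT, real_inner_self_eq_norm_sq, he.on.1 i]
        ring
      · intro j _ hj
        rw [real_inner_smul_left, real_inner_smul_right, hT, he.on.2 hj.symm]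
        ring
      · intro h
        exact absurd hi h
    rw [Finset.sum_congr rfl h1, Finset.sum_const, Finset.card_range, nsmul_eq_mul, hc, div_pow,
      Real.sq_sqrt hN0.le]
    field_simp

theorem exists_plan (T : X →ₗ[ℝ] X →ₗ[ℝ] Y) (hT : ∀ u v u' v' : X, ⟪T u v, T u' v'⟫ = ⟪u, u'⟫ * ⟪v, v'⟫)
    (e' : ℕ → X) (e : ℕ → X) (he : Frame e' e)
    (hbounds : ∀ (g : Y) (M ν : ℝ), Inv T e' g M ν →
      0 < M ∧ (∀ u v : X, |⟪g, T u v⟫| ≤ M * ‖u‖ * ‖v‖) ∧ (∀ j (v : X), ⟪g, T (e' j) v⟫ = 0) ∧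
      (∀ j (u : X), ⟪g, T u (e' j)⟫ = 0) ∧ 3 / 4 * ‖g‖ ^ 2 ≤ M * ν ∧ M * ν ≤ 5 / 2 * ‖g‖ ^ 2)
    (hstep : ∀ (g : Y) (M ν r : ℝ), Inv T e' g M ν → 0 ≤ r → r ≤ 1 / 64 → StepOK T e' g M ν r)
    (N : ℕ) (hN : 1 ≤ N) (r : ℕ → ℝ) (hr : ∀ k, 0 ≤ r k ∧ r k ≤ 1 / 64)
    (hsum : ∀ n, ∑ k ∈ Finset.range n,
        r k ^ 2 * ((25 / 4) / (N + (3 / 80) * ∑ j ∈ Finset.range k, r j)) ≤ 1 / 2) :
    ∃ (g : ℕ → Y) (M : ℕ → ℝ) (y z : ℕ → X), Plan T e' r N g M y z := by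
  have hN0 : (0 : ℝ) < N := by exact_mod_cast hN
  obtain ⟨g0, hI0, hg0⟩ := start_state T hT e' e he N hN
  -- one step
  have key : ∀ (k : ℕ) (s : {s : Y × ℝ × ℝ // Inv T e' s.1 s.2.1 s.2.2}),
      ∃ (s' : {s : Y × ℝ × ℝ // Inv T e' s.1 s.2.1 s.2.2}) (y z : X),
        s'.1.2.1 ≤ s.1.2.1 ∧ s.1.2.2 + 1 / 20 * r k * s.1.2.1 ≤ s'.1.2.2 ∧ ‖y‖ = 1 ∧ ‖z‖ = 1 ∧
        (∀ j, ⟪y, e' j⟫ = 0) ∧ (∀ j, ⟪z, e' j⟫ = 0) ∧ ⟪s.1.1, T y z⟫ = r k * s.1.2.1 ∧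
        s'.1.1 = s.1.1 - (r k * s.1.2.1) • T y z := by
    rintro k ⟨⟨g, M, ν⟩, hs⟩
    obtain ⟨M', ν', y, z, h1, h2, h3, h4, h5, h6, h7, h8⟩ := hstep g M ν (r k) hs (hr k).1 (hr k).2
    exact ⟨⟨⟨_, M', ν'⟩, h8⟩, y, z, h1, h2, h3, h4, h5, h6, h7, rfl⟩
  choose nx yy zz a1 a2 a3 a4 a5 a6 a7 a8 using key
  obtain ⟨st, hst0, hst⟩ : ∃ st : ℕ → {s : Y × ℝ × ℝ // Inv T e' s.1 s.2.1 s.2.2},
      st 0 = ⟨⟨g0, 1 / √N, √N⟩, hI0⟩ ∧ ∀ k, st (k + 1) = nx k (st k) :=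
    ⟨fun k => Nat.rec ⟨⟨g0, 1 / √N, √N⟩, hI0⟩ (fun k s => nx k s) k, rfl, fun k => rfl⟩
  obtain ⟨g, hg⟩ : ∃ g : ℕ → Y, ∀ k, g k = (st k).1.1 := ⟨_, fun _ => rfl⟩
  obtain ⟨M, hM⟩ : ∃ M : ℕ → ℝ, ∀ k, M k = (st k).1.2.1 := ⟨_, fun _ => rfl⟩
  obtain ⟨ν, hν⟩ : ∃ ν : ℕ → ℝ, ∀ k, ν k = (st k).1.2.2 := ⟨_, fun _ => rfl⟩
  obtain ⟨y, hy⟩ : ∃ y : ℕ → X, ∀ k, y k = yy k (st k) := ⟨_, fun _ => rfl⟩
  obtain ⟨z, hz⟩ : ∃ z : ℕ → X, ∀ k, z k = zz k (st k) := ⟨_, fun _ => rfl⟩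
  have hinv : ∀ k, Inv T e' (g k) (M k) (ν k) := by
    intro k
    rw [hg, hM, hν]
    exact (st k).2
  have b1 : ∀ k, M (k + 1) ≤ M k := by
    intro k
    rw [hM, hM, hst]
    exact a1 k (st k)
  have b2 : ∀ k, ν k + 1 / 20 * r k * M k ≤ ν (k + 1) := by
    intro k
    rw [hM, hν, hν, hst]
    exact a2 k (st k)
  have b3 : ∀ k, ‖y k‖ = 1 := fun k => by rw [hy]; exact a3 k (st k)
  have b4 : ∀ k, ‖z k‖ = 1 := fun k => by rw [hz]; exact a4 k (st k)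
  have b7 : ∀ k, ⟪g k, T (y k) (z k)⟫ = r k * M k := by
    intro k
    rw [hg, hy, hz, hM]
    exact a7 k (st k)
  have b8 : ∀ k, g (k + 1) = g k - (r k * M k) • T (y k) (z k) := by
    intro k
    rw [hg, hg, hy, hz, hM, hst]
    exact a8 k (st k)
  have hMpos : ∀ k, 0 < M k := fun k => (hbounds _ _ _ (hinv k)).1
  have hTn : ∀ k, ‖T (y k) (z k)‖ ^ 2 = 1 := by
    intro k
    rw [← real_inner_self_eq_norm_sq, hT, real_inner_self_eq_norm_sq, real_inner_self_eq_norm_sq,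
      b3, b4]
    norm_num
  have hn : ∀ k, ‖g k‖ ^ 2 = 1 - ∑ j ∈ Finset.range k, (r j * M j) ^ 2 := by
    intro k
    induction k with
    | zero =>
      rw [hg, hst0, Finset.sum_range_zero, sub_zero]
      exact hg0
    | succ k ih =>
      rw [b8, norm_sub_sq_real, real_inner_smul_right, b7, norm_smul, mul_pow, hTn, ih,
        Finset.sum_range_succ, Real.norm_eq_abs, sq_abs]
      ring
  have hle : ∀ k, ‖g k‖ ^ 2 ≤ 1 := by
    intro k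
    rw [hn]
    have : 0 ≤ ∑ j ∈ Finset.range k, (r j * M j) ^ 2 := Finset.sum_nonneg fun j _ => sq_nonneg _
    linarith
  have hD : ∀ k, 0 < (N : ℝ) + 3 / 80 * ∑ j ∈ Finset.range k, r j := by
    intro k
    have : 0 ≤ ∑ j ∈ Finset.range k, r j := Finset.sum_nonneg fun j _ => (hr j).1
    positivity
  have hMsq : ∀ k, 0 < ν k → (N : ℝ) + 3 / 80 * ∑ j ∈ Finset.range k, r j ≤ ν k ^ 2 →
      M k ^ 2 ≤ (25 / 4) / (N + (3 / 80) * ∑ j ∈ Finset.range k, r j) := by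
    intro k h1 h2
    rw [le_div_iff₀ (hD k)]
    have h3 := (hbounds _ _ _ (hinv k)).2.2.2.2.2
    have h4 : M k * ν k ≤ 5 / 2 := by
      have := hle k
      linarith
    have h5 : 0 ≤ M k * ν k := (mul_pos (hMpos k) h1).le
    calc M k ^ 2 * (N + (3 / 80) * ∑ j ∈ Finset.range k, r j) ≤ M k ^ 2 * ν k ^ 2 :=
          mul_le_mul_of_nonneg_left h2 (sq_nonneg _)
      _ = (M k * ν k) ^ 2 := by ring
      _ ≤ (5 / 2) ^ 2 := pow_le_pow_left₀ h5 h4 2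
      _ = 25 / 4 := by norm_num
  have hhalf : ∀ k, (∀ j < k, 0 < ν j ∧ (N : ℝ) + 3 / 80 * ∑ i ∈ Finset.range j, r i ≤ ν j ^ 2) →
      1 / 2 ≤ ‖g k‖ ^ 2 := by
    intro k h
    rw [hn]
    have h1 : ∑ j ∈ Finset.range k, (r j * M j) ^ 2 ≤ ∑ j ∈ Finset.range k,
        r j ^ 2 * ((25 / 4) / (N + (3 / 80) * ∑ i ∈ Finset.range j, r i)) := by
      apply Finset.sum_le_sum
      intro j hj
      rw [mul_pow]
      obtain ⟨h2, h3⟩ := h j (Finset.mem_range.1 hj)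
      exact mul_le_mul_of_nonneg_left (hMsq j h2 h3) (sq_nonneg _)
    have := hsum k
    linarith
  have hQ : ∀ k, 0 < ν k ∧ (N : ℝ) + 3 / 80 * ∑ i ∈ Finset.range k, r i ≤ ν k ^ 2 := by
    intro k
    induction k using Nat.strong_induction_on with
    | _ k ih =>
      rcases k with _ | k
      · rw [Finset.sum_range_zero, mul_zero, add_zero, hν, hst0]
        exact ⟨Real.sqrt_pos.2 hN0, (Real.sq_sqrt hN0.le).ge⟩
      · obtain ⟨h1, h2⟩ := ih k (Nat.lt_succ_self k)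
        have h3 := hhalf k fun j hj => ih j (hj.trans (Nat.lt_succ_self k))
        have h4 := (hbounds _ _ _ (hinv k)).2.2.2.2.1
        have h5 := b2 k
        have h6 := hMpos k
        have h7 := (hr k).1
        have h8 : 0 ≤ 1 / 20 * r k * M k := by positivity
        have h9 : 0 < ν (k + 1) := by linarith
        refine ⟨h9, ?_⟩
        have h10 : (ν k + 1 / 20 * r k * M k) ^ 2 ≤ ν (k + 1) ^ 2 :=
          pow_le_pow_left₀ (by linarith) h5 2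
        have h11 : 3 / 8 ≤ M k * ν k := by linarith
        have h12 : r k * (3 / 8) ≤ r k * (M k * ν k) := mul_le_mul_of_nonneg_left h11 h7
        rw [Finset.sum_range_succ]
        nlinarith [sq_nonneg (1 / 20 * r k * M k)]
  refine ⟨g, M, y, z, ?_⟩
  exact {
    M_pos := hMpos
    M_anti := b1
    M_sq := fun k => hMsq k (hQ k).1 (hQ k).2
    y_norm := b3
    z_norm := b4
    y_orth := fun k j => by rw [hy]; exact a5 k (st k) j
    z_orth := fun k j => by rw [hz]; exact a6 k (st k) j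
    inner_g := b7
    step := b8
    bound := fun k => (hbounds _ _ _ (hinv k)).2.1
    orthL := fun k => (hbounds _ _ _ (hinv k)).2.2.1
    orthR := fun k => (hbounds _ _ _ (hinv k)).2.2.2.1
    half := fun k => hhalf k fun j _ => hQ j }

end TH934.WGA
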