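import Pool.Agent.TH934.WGA.Plan

/-!
# An orthonormal sequence in `L²([0,1])`
-/

namespace TH934.WGA

open MeasureTheory Filter Topology Real
open scoped RealInnerProductSpace

namespace Orth

/-- the point `1/(n+1)` of the unit interval -/
noncomputable def pt (n : ℕ) : unitInterval :=
  ⟨1 / ((n : ℝ) + 1), by positivity, by
    rw [div_le_one (by positivity)]
    have : (0 : ℝ) ≤ n := n.cast_nonneg
    linarith⟩

theorem pt_lt {m n : ℕ} (h : m < n) : (pt n : ℝ) < pt m := by
  unfold pt
  have h' : (m : ℝ) < n := by exact_mod_cast h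
  exact one_div_lt_one_div_of_lt (by positivity) (by linarith)

theorem pt_le {m n : ℕ} (h : m ≤ n) : pt n ≤ pt m := by
  rcases h.lt_or_eq with h | rfl
  · exact (pt_lt h).le
  · exact le_rfl

/-- the interval `(1/(n+2), 1/(n+1)]` -/
noncomputable def A (n : ℕ) : Set unitInterval := Set.Ioc (pt (n + 1)) (pt n)

theorem A_meas (n : ℕ) : MeasurableSet (A n) := measurableSet_Ioc

theorem A_disj {m n : ℕ} (h : m < n) : A m ∩ A n = ∅ := by
  ext x
  simp only [A, Set.mem_inter_iff, Set.mem_Ioc, Set.mem_empty_iff_false, iff_false, not_and, not_le,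
    and_imp]
  intro h1 _ h3
  exact lt_of_le_of_lt (pt_le h) h1

theorem A_pos (n : ℕ) : (volume : Measure unitInterval) (A n) ≠ 0 := by
  unfold A
  rw [unitInterval.volume_Ioc]
  have := pt_lt (Nat.lt_succ_self n)
  simp only [ne_eq, ENNReal.ofReal_eq_zero, not_le, sub_pos]
  exact this

/-- the indicator function of `A n` -/
noncomputable def g (n : ℕ) : E :=
  indicatorConstLp 2 (A_meas n) (measure_ne_top _ _) (1 : ℝ)

theorem g_norm (n : ℕ) : ‖g n‖ ≠ 0 := by
  unfold g
  rw [norm_indicatorConstLp (by norm_num) (by norm_num)]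
  simp only [norm_one, one_mul, ENNReal.toReal_ofNat, ne_eq]
  have h : 0 < (volume : Measure unitInterval).real (A n) :=
    ENNReal.toReal_pos (A_pos n) (measure_ne_top _ _)
  positivity

theorem g_inner {m n : ℕ} (h : m < n) : ⟪g m, g n⟫ = 0 := by
  unfold g
  rw [L2.inner_indicatorConstLp_one]
  have h1 : ∀ᵐ x ∂(volume : Measure unitInterval).restrict (A m),
      (indicatorConstLp 2 (A_meas n) (measure_ne_top _ _) (1 : ℝ) : E) x = 0 := by
    have h2 := (indicatorConstLp_coeFn (p := 2) (hs := A_meas n)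
      (hμs := measure_ne_top (volume : Measure unitInterval) _) (c := (1 : ℝ)))
    filter_upwards [ae_restrict_of_ae h2, ae_restrict_mem (A_meas m)] with x hx hxm
    rw [hx, Set.indicator_of_notMem]
    intro hxn
    have : x ∈ A m ∩ A n := ⟨hxm, hxn⟩
    rw [A_disj h] at this
    exact this
  rw [integral_congr_ae h1]
  simp

end Orth

theorem exists_orthonormal : ∃ e : ℕ → E, Orthonormal ℝ e := by
  refine ⟨fun n => (‖Orth.g n‖)⁻¹ • Orth.g n, ?_, ?_⟩
  · intro n
    simp only [norm_smul, norm_inv, norm_norm]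
    exact inv_mul_cancel₀ (Orth.g_norm n)
  · intro m n hmn
    simp only [inner_smul_left, inner_smul_right]
    rcases lt_or_gt_of_ne hmn with h | h
    · rw [Orth.g_inner h]; simp
    · rw [real_inner_comm, Orth.g_inner h]; simp

end TH934.WGA
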