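import Pool.Agent.TH934.WGA.Defs

/-!
# The rotation process: definitions

`X` plays the role of `L²([0,1])`, `Y` the role of `L²([0,1]²)`, `T u v` the role of
`u(x₁) v(x₂)`, and `e' j` is a reserved orthonormal sequence.
-/

namespace TH934.WGA

open Real
open scoped RealInnerProductSpace

variable {X Y : Type*} [NormedAddCommGroup X] [InnerProductSpace ℝ X]
  [NormedAddCommGroup Y] [InnerProductSpace ℝ Y]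

/-- an orthonormal sequence orthogonal to the reserved vectors -/
structure Frame (e' : ℕ → X) (U : ℕ → X) : Prop where
  on : Orthonormal ℝ U
  orth : ∀ i j, ⟪U i, e' j⟫ = 0

/-- `∑_{i<n} x i T(U i, V i) + p T(U n, V n) + q T(U n, V (n+1)) + s T(U (n+1), V (n+1))` -/
noncomputable def conf (T : X →ₗ[ℝ] X →ₗ[ℝ] Y) (U V : ℕ → X) (x : ℕ → ℝ) (n : ℕ) (p q s : ℝ) : Y :=
  ∑ i ∈ Finset.range n, x i • T (U i) (V i) + p • T (U n) (V n) + q • T (U n) (V (n + 1))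
    + s • T (U (n + 1)) (V (n + 1))

/-- phase 1 of the rotation of the active block (right vector turns from `V n` to `V (n+1)`) -/
def Phase1 (T : X →ₗ[ℝ] X →ₗ[ℝ] Y) (e' : ℕ → X) (g : Y) (M ν : ℝ) : Prop :=
  ∃ (U V : ℕ → X) (x : ℕ → ℝ) (n : ℕ) (ρ θ : ℝ), Frame e' U ∧ Frame e' V ∧ 0 < M ∧
    (∀ i < n, 2 / 5 * M ≤ x i ∧ x i ≤ M) ∧ 0 ≤ θ ∧ θ < π / 4 ∧ M * (1 - θ / 8) ≤ ρ ∧ ρ ≤ M ∧
    g = conf T U V x n (ρ * cos θ) (ρ * sin θ) 0 ∧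
    ν = ∑ i ∈ Finset.range n, x i + ρ * (1 + θ / 8)

/-- phase 2 of the rotation (left vector of the column `V (n+1)` turns from `U n` to
`U (n+1)`) -/
def Phase2 (T : X →ₗ[ℝ] X →ₗ[ℝ] Y) (e' : ℕ → X) (g : Y) (M ν : ℝ) : Prop :=
  ∃ (U V : ℕ → X) (x : ℕ → ℝ) (n : ℕ) (p ρ ψ : ℝ), Frame e' U ∧ Frame e' V ∧ 0 < M ∧
    (∀ i < n, 2 / 5 * M ≤ x i ∧ x i ≤ M) ∧ 0 ≤ ψ ∧ ψ < π / 2 ∧ 2 / 5 * M ≤ p ∧
    p ^ 2 + ρ ^ 2 ≤ M ^ 2 ∧ 61 / 100 * M * (1 - ψ / 8) ≤ ρ ∧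
    g = conf T U V x n p (ρ * cos ψ) (ρ * sin ψ) ∧
    ν = ∑ i ∈ Finset.range n, x i + p + ρ * (3 / 4 + ψ / 8)

/-- the state of the process -/
def Inv (T : X →ₗ[ℝ] X →ₗ[ℝ] Y) (e' : ℕ → X) (g : Y) (M ν : ℝ) : Prop :=
  Phase1 T e' g M ν ∨ Phase2 T e' g M ν

/-- one step of the process with ratio `r` -/
def StepOK (T : X →ₗ[ℝ] X →ₗ[ℝ] Y) (e' : ℕ → X) (g : Y) (M ν r : ℝ) : Prop :=
  ∃ (M' ν' : ℝ) (y z : X), M' ≤ M ∧ ν + 1 / 20 * r * M ≤ ν' ∧ ‖y‖ = 1 ∧ ‖z‖ = 1 ∧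
    (∀ j, ⟪y, e' j⟫ = 0) ∧ (∀ j, ⟪z, e' j⟫ = 0) ∧ ⟪g, T y z⟫ = r * M ∧
    Inv T e' (g - (r * M) • T y z) M' ν'

/-- the output of the whole process for the sequence of ratios `r` -/
structure Plan (T : X →ₗ[ℝ] X →ₗ[ℝ] Y) (e' : ℕ → X) (r : ℕ → ℝ) (N : ℕ) (g : ℕ → Y) (M : ℕ → ℝ)
    (y z : ℕ → X) : Prop where
  M_pos : ∀ k, 0 < M k
  M_anti : ∀ k, M (k + 1) ≤ M k
  M_sq : ∀ k, M k ^ 2 ≤ (25 / 4) / (N + (3 / 80) * ∑ j ∈ Finset.range k, r j)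
  y_norm : ∀ k, ‖y k‖ = 1
  z_norm : ∀ k, ‖z k‖ = 1
  y_orth : ∀ k j, ⟪y k, e' j⟫ = 0
  z_orth : ∀ k j, ⟪z k, e' j⟫ = 0
  inner_g : ∀ k, ⟪g k, T (y k) (z k)⟫ = r k * M k
  step : ∀ k, g (k + 1) = g k - (r k * M k) • T (y k) (z k)
  bound : ∀ k (u v : X), |⟪g k, T u v⟫| ≤ M k * ‖u‖ * ‖v‖
  orthL : ∀ k j (v : X), ⟪g k, T (e' j) v⟫ = 0
  orthR : ∀ k j (u : X), ⟪g k, T u (e' j)⟫ = 0
  half : ∀ k, 1 / 2 ≤ ‖g k‖ ^ 2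

end TH934.WGA
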