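import Pool.Agent.TH934.WGA.Plan

set_option autoImplicit false

/-!
# The schedule: a numeric lemma on slow sequences
-/

namespace TH934.WGA

open MeasureTheory Filter Topology Real
open scoped RealInnerProductSpace

theorem exists_schedule (t : ℕ → ℝ) (ht0 : ∀ k, 0 ≤ t k) (ht1 : ∀ k, t k ≤ 1) (hV : Slow t) :
    ∃ (N : ℕ) (r : ℕ → ℝ) (Rem : Set ℕ), 1 ≤ N ∧ (∀ k, 0 ≤ r k ∧ r k ≤ 1 / 64) ∧
      (∀ k ∈ Rem, r k = 0) ∧ (∀ k ∉ Rem, t k ≤ r k) ∧
      (∀ n, ∑ k ∈ Finset.range n,
        r k ^ 2 * ((25 / 4) / (N + (3 / 80) * ∑ j ∈ Finset.range k, r j)) ≤ 1 / 2) ∧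
      Summable (Rem.indicator (fun k => (25 / 4) / ((N : ℝ) + (3 / 80) * ∑ j ∈ Finset.range k, r j))) := by
  classical
  obtain ⟨a, ha0, hsum, hta⟩ := hV
  -- the tail
  obtain ⟨m0, hm0⟩ : ∃ m0 : ℕ, ∑' k, a (k + m0) ^ 2 ≤ 1 / 6000 := by
    have h1 := tendsto_sum_nat_add (fun k => a k ^ 2)
    have h2 := h1.eventually (ge_mem_nhds (by norm_num : (0 : ℝ) < 1 / 6000))
    obtain ⟨m0, h3⟩ := h2.exists
    exact ⟨m0, h3⟩
  set b : ℕ → ℝ := fun k => if m0 ≤ k then a k else 0 with hb
  have hb0 : ∀ k, 0 ≤ b k := fun k => by rw [hb]; simp only; split_ifs; exacts [ha0 k, le_rfl]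
  have hbsum : ∀ n, ∑ k ∈ Finset.range n, b k ^ 2 ≤ 1 / 6000 := by
    intro n
    refine le_trans ?_ hm0
    have hs : Summable (fun k => a (k + m0) ^ 2) := (summable_nat_add_iff m0).2 hsum
    have h1 : ∑ k ∈ Finset.range n, b k ^ 2 ≤ ∑ k ∈ Finset.range (m0 + n), b k ^ 2 :=
      Finset.sum_le_sum_of_subset_of_nonneg (Finset.range_subset_range.2 (by omega)) (fun _ _ _ => sq_nonneg _)
    refine h1.trans ?_
    rw [Finset.sum_range_add]
    have h2 : ∑ k ∈ Finset.range m0, b k ^ 2 = 0 := by
      apply Finset.sum_eq_zero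
      intro k hk
      rw [Finset.mem_range] at hk
      rw [hb]; simp only
      rw [if_neg (by omega)]; norm_num
    rw [h2, zero_add]
    have h3 : ∑ k ∈ Finset.range n, b (m0 + k) ^ 2 = ∑ k ∈ Finset.range n, a (k + m0) ^ 2 := by
      apply Finset.sum_congr rfl
      intro k _
      rw [hb]; simp only
      rw [if_pos (by omega), add_comm]
    rw [h3]
    exact hs.sum_le_tsum _ (fun _ _ => sq_nonneg _)
  set A : ℝ := 1 + ∑ j ∈ Finset.range m0, a j with hA
  have hA1 : 1 ≤ A := by
    have : 0 ≤ ∑ j ∈ Finset.range m0, a j := Finset.sum_nonneg fun _ _ => ha0 _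
    linarith
  set S : ℕ → ℝ := fun k => A + ∑ j ∈ Finset.range (k + 1), b j with hS
  have hSmono : ∀ j k, j ≤ k → S j ≤ S k := by
    intro j k hjk
    rw [hS]; simp only
    have : ∑ j ∈ Finset.range (j + 1), b j ≤ ∑ j ∈ Finset.range (k + 1), b j :=
      Finset.sum_le_sum_of_subset_of_nonneg (Finset.range_subset_range.2 (by omega)) (fun _ _ _ => hb0 _)
    linarith
  have hS1 : ∀ k, 1 ≤ S k := by
    intro k
    rw [hS]; simp only
    have : 0 ≤ ∑ j ∈ Finset.range (k + 1), b j := Finset.sum_nonneg fun _ _ => hb0 _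
    linarith
  have haS : ∀ k, ∑ j ∈ Finset.range (k + 1), a j ≤ S k := by
    intro k
    have h1 : ∀ j, a j = (if j < m0 then a j else 0) + b j := by
      intro j
      rw [hb]; simp only
      by_cases h : m0 ≤ j
      · rw [if_pos h, if_neg (by omega), zero_add]
      · rw [if_neg h, if_pos (by omega), add_zero]
    have h2 : ∑ j ∈ Finset.range (k + 1), a j = ∑ j ∈ Finset.range (k + 1), (if j < m0 then a j else 0) + ∑ j ∈ Finset.range (k + 1), b j := by
      rw [← Finset.sum_add_distrib]
      exact Finset.sum_congr rfl fun j _ => h1 j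
    have h3 : ∑ j ∈ Finset.range (k + 1), (if j < m0 then a j else 0) ≤ ∑ j ∈ Finset.range m0, a j := by
      rw [← Finset.sum_filter]
      apply Finset.sum_le_sum_of_subset_of_nonneg
      · intro j hj
        rw [Finset.mem_filter] at hj
        exact Finset.mem_range.2 hj.2
      · intro j _ _; exact ha0 j
    rw [h2, hS]; simp only
    linarith
  set Rot : ℕ → Prop := fun k => m0 ≤ k ∧ a k * S k < 1 / 128 with hRot
  set c : ℕ → ℝ := fun k => if Rot k then a k else 0 with hc
  have hc0 : ∀ k, 0 ≤ c k := fun k => by rw [hc]; simp only; split_ifs; exacts [ha0 k, le_rfl]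
  have hcb : ∀ k, c k ≤ b k := by
    intro k
    rw [hc, hb]; simp only
    by_cases h : Rot k
    · rw [if_pos h, if_pos h.1]
    · rw [if_neg h]; split_ifs; exacts [ha0 k, le_rfl]
  set R : ℕ → ℝ := fun k => A + ∑ j ∈ Finset.range k, c j with hR
  have hRs : ∀ k, R (k + 1) = R k + c k := by
    intro k
    rw [hR]; simp only
    rw [Finset.sum_range_succ]; ring
  have hR1 : ∀ k, 1 ≤ R k := by
    intro k
    rw [hR]; simp only
    have : 0 ≤ ∑ j ∈ Finset.range k, c j := Finset.sum_nonneg fun _ _ => hc0 _
    linarith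
  have hRS : ∀ k, R (k + 1) ≤ S k := by
    intro k
    rw [hR, hS]; simp only
    have : ∑ j ∈ Finset.range (k + 1), c j ≤ ∑ j ∈ Finset.range (k + 1), b j := Finset.sum_le_sum fun _ _ => hcb _
    linarith
  have hSR : ∀ k, S k ≤ 2 * R (k + 1) := by
    intro k
    have h1 : S k - R (k + 1) = ∑ j ∈ Finset.range (k + 1), (b j - c j) := by
      rw [Finset.sum_sub_distrib, hS, hR]; simp only; ring
    have h2 : ∑ j ∈ Finset.range (k + 1), (b j - c j) ≤ ∑ j ∈ Finset.range (k + 1), (128 * S k) * b j ^ 2 := by
      apply Finset.sum_le_sum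
      intro j hj
      rw [Finset.mem_range] at hj
      have hSj := hSmono j k (by omega)
      have hSk := hS1 k
      by_cases h : Rot j
      · have e1 : b j - c j = 0 := by
          rw [hb, hc]; simp only
          rw [if_pos h, if_pos h.1, sub_self]
        rw [e1]
        positivity
      · by_cases hm : m0 ≤ j
        · have e1 : b j - c j = a j := by
            rw [hb, hc]; simp only
            rw [if_pos hm, if_neg h, sub_zero]
          have e2 : b j = a j := by rw [hb]; simp only; rw [if_pos hm]
          rw [e1, e2]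
          have h3 : 1 / 128 ≤ a j * S j := by
            by_contra hcon
            exact h ⟨hm, not_le.1 hcon⟩
          have h4 : 1 / 128 ≤ a j * S k := h3.trans (mul_le_mul_of_nonneg_left hSj (ha0 j))
          have h5 : a j * (1 / 128) ≤ a j * (a j * S k) := mul_le_mul_of_nonneg_left h4 (ha0 j)
          nlinarith
        · have e1 : b j - c j = 0 := by
            have e2 : b j = 0 := by rw [hb]; simp only; rw [if_neg hm]
            have := hcb j
            have := hc0 j
            linarith
          rw [e1]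
          positivity
    rw [← Finset.mul_sum] at h2
    have h3 := hbsum (k + 1)
    have hSk := hS1 k
    have h4 : (128 * S k) * ∑ j ∈ Finset.range (k + 1), b j ^ 2 ≤ (128 * S k) * (1 / 6000) := by gcongr
    linarith
  -- the sequence
  set r : ℕ → ℝ := fun k => 2 * c k * R (k + 1) with hr
  have hr0 : ∀ k, 0 ≤ r k := by
    intro k
    have := hR1 (k + 1)
    have := hc0 k
    rw [hr]; simp only
    positivity
  set N : ℕ := ⌈A ^ 2⌉₊ with hN
  have hNA : A ^ 2 ≤ N := Nat.le_ceil _
  have hrsum : ∀ k, R k ^ 2 - A ^ 2 ≤ ∑ j ∈ Finset.range k, r j := by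
    intro k
    induction k with
    | zero => rw [hR]; simp
    | succ k ih =>
      rw [Finset.sum_range_succ]
      have h1 : R (k + 1) ^ 2 - R k ^ 2 ≤ r k := by
        have h2 := hRs k
        have h3 := hc0 k
        have h4 := hR1 k
        rw [hr]; simp only
        rw [h2]
        nlinarith
      linarith
  have hden : ∀ k, (3 / 80) * R k ^ 2 ≤ (N : ℝ) + (3 / 80) * ∑ j ∈ Finset.range k, r j := by
    intro k
    have h1 := hrsum k
    have h2 : 0 ≤ A ^ 2 := sq_nonneg _
    nlinarith
  refine ⟨N, r, {k | ¬ Rot k}, ?_, fun k => ⟨hr0 k, ?_⟩, fun k hk => ?_, fun k hk => ?_, fun n => ?_, ?_⟩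
  · have : (0 : ℝ) < N := lt_of_lt_of_le (by nlinarith) hNA
    exact_mod_cast this
  · rw [hr]; simp only
    by_cases h : Rot k
    · have e1 : c k = a k := by rw [hc]; simp only; rw [if_pos h]
      rw [e1]
      have h1 := h.2
      have h2 := mul_le_mul_of_nonneg_left (hRS k) (ha0 k)
      nlinarith
    · have e1 : c k = 0 := by rw [hc]; simp only; rw [if_neg h]
      rw [e1]; norm_num
  · have e1 : c k = 0 := by rw [hc]; simp only; rw [if_neg hk]
    rw [hr]; simp only
    rw [e1]; ring
  · have h : Rot k := by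
      by_contra hcon
      exact hk hcon
    have e1 : c k = a k := by rw [hc]; simp only; rw [if_pos h]
    rw [hr]; simp only
    rw [e1]
    have h1 := hta k
    have h2 := mul_le_mul_of_nonneg_left ((haS k).trans (hSR k)) (ha0 k)
    linarith
  · have h1 : ∀ k ∈ Finset.range n, r k ^ 2 * ((25 / 4) / (N + (3 / 80) * ∑ j ∈ Finset.range k, r j)) ≤ 8000 / 3 * b k ^ 2 := by
      intro k _
      have hRk := hR1 k
      have hdk := hden k
      by_cases h : Rot k
      · have e1 : c k = a k := by rw [hc]; simp only; rw [if_pos h]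
        have e2 : b k = a k := by rw [hb]; simp only; rw [if_pos h.1]
        have ha1 : a k ≤ 1 := by
          have h2 := h.2
          have h3 := hS1 k
          have h4 := ha0 k
          nlinarith
        have h5 : R (k + 1) ≤ 2 * R k := by rw [hRs, e1]; linarith
        have h6 : (25 / 4) / (N + (3 / 80) * ∑ j ∈ Finset.range k, r j) ≤ (25 / 4) / ((3 / 80) * R k ^ 2) := by
          apply div_le_div_of_nonneg_left (by norm_num) (by positivity) hdk
        have h7 : r k ^ 2 ≤ (4 * a k * R k) ^ 2 := by
          apply pow_le_pow_left₀ (hr0 k)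
          rw [hr]; simp only
          rw [e1]
          have := mul_le_mul_of_nonneg_left h5 (ha0 k)
          linarith
        rw [e2]
        have h8 : 0 < (N : ℝ) + (3 / 80) * ∑ j ∈ Finset.range k, r j := lt_of_lt_of_le (by positivity) hdk
        calc _ ≤ (4 * a k * R k) ^ 2 * ((25 / 4) / ((3 / 80) * R k ^ 2)) :=
              mul_le_mul h7 h6 (div_nonneg (by norm_num) h8.le) (sq_nonneg _)
          _ = 8000 / 3 * a k ^ 2 := by
              field_simp
              ring
      · have e1 : c k = 0 := by rw [hc]; simp only; rw [if_neg h]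
        have e2 : r k = 0 := by rw [hr]; simp only; rw [e1]; ring
        rw [e2]
        have : 0 ≤ b k ^ 2 := sq_nonneg _
        norm_num
        exact this
    refine (Finset.sum_le_sum h1).trans ?_
    rw [← Finset.mul_sum]
    have := hbsum n
    linarith
  · have hbound : Summable (fun k => (25 / ((3 / 80) * (1 / 128) ^ 2)) * a k ^ 2 + (if k < m0 then (25 / 4) / (3 / 80 : ℝ) else 0)) := by
      apply (hsum.mul_left _).add
      apply summable_of_ne_finset_zero (s := Finset.range m0)
      intro k hk
      rw [Finset.mem_range] at hk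
      rw [if_neg hk]
    refine Summable.of_nonneg_of_le (fun k => ?_) (fun k => ?_) hbound
    · apply Set.indicator_nonneg
      intro k _
      have := hden k
      have h1 := hR1 k
      have h2 : 0 < (3 / 80) * R k ^ 2 := by positivity
      exact div_nonneg (by norm_num) (by linarith)
    · by_cases hk : k ∈ {k | ¬ Rot k}
      · rw [Set.indicator_of_mem hk]
        have hRk := hR1 k
        have hdk := hden k
        have h6 : (25 / 4) / ((N : ℝ) + (3 / 80) * ∑ j ∈ Finset.range k, r j) ≤ (25 / 4) / ((3 / 80) * R k ^ 2) := by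
          apply div_le_div_of_nonneg_left (by norm_num) (by positivity) hdk
        refine h6.trans ?_
        by_cases hm : k < m0
        · rw [if_pos hm]
          have h7 : (25 / 4) / ((3 / 80) * R k ^ 2) ≤ (25 / 4) / (3 / 80 : ℝ) := by
            apply div_le_div_of_nonneg_left (by norm_num) (by norm_num)
            nlinarith
          have h8 : 0 ≤ (25 / ((3 / 80) * (1 / 128) ^ 2)) * a k ^ 2 := by positivity
          linarith
        · rw [if_neg hm, add_zero]
          have e1 : c k = 0 := by rw [hc]; simp only; rw [if_neg hk]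
          have h7 : S k ≤ 2 * R k := by
            have := hSR k
            rw [hRs, e1, add_zero] at this
            exact this
          have h8 : 1 / 128 ≤ a k * S k := by
            by_contra hcon
            exact hk ⟨by omega, not_le.1 hcon⟩
          have h9 : 1 / 128 ≤ a k * (2 * R k) := h8.trans (mul_le_mul_of_nonneg_left h7 (ha0 k))
          have h10 : (1 / 128 : ℝ) ^ 2 ≤ (a k * (2 * R k)) ^ 2 := pow_le_pow_left₀ (by norm_num) h9 2
          have h11 : (1 / 128 : ℝ) ^ 2 / (4 * R k ^ 2) ≤ a k ^ 2 := by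
            rw [div_le_iff₀ (by positivity)]
            nlinarith
          calc (25 / 4) / ((3 / 80) * R k ^ 2) = (25 / ((3 / 80) * (1 / 128) ^ 2)) * ((1 / 128 : ℝ) ^ 2 / (4 * R k ^ 2)) := by
                have : R k ≠ 0 := by positivity
                field_simp
            _ ≤ _ := mul_le_mul_of_nonneg_left h11 (by norm_num)
      · rw [Set.indicator_of_notMem hk]
        have h8 : 0 ≤ (25 / ((3 / 80) * (1 / 128) ^ 2)) * a k ^ 2 := by positivity
        split_ifs
        · have : (0 : ℝ) ≤ 25 / 4 / (3 / 80) := by norm_num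
          linarith
        · linarith

end TH934.WGA
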