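import Pool.Agent.TH934.WGA.Plan

/-!
# The first phase of the rotation
-/

namespace TH934.WGA

open Real
open scoped RealInnerProductSpace

/-- the small rotation angle -/
theorem delta_facts (s : ℝ) (hs0 : 0 ≤ s) (hs1 : s ≤ 1 / 31) :
    ∃ δ : ℝ, sin δ = s ∧ 0 ≤ δ ∧ δ ≤ 1 / 16 ∧ s ≤ δ ∧ 1 - δ ^ 2 / 2 ≤ cos δ ∧ cos δ ≤ 1 := by
  refine ⟨arcsin s, sin_arcsin (by linarith) (by linarith), arcsin_nonneg.2 hs0, ?_, ?_,
    one_sub_sq_div_two_le_cos, cos_le_one _⟩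
  · have h0 : 0 ≤ arcsin s := arcsin_nonneg.2 hs0
    have h1 : arcsin s ≤ π / 2 := arcsin_le_pi_div_two s
    have h2 := mul_le_sin h0 h1
    rw [sin_arcsin (by linarith) (by linarith)] at h2
    have hpi : 0 < π := pi_pos
    have hpi2 : π < 3.15 := pi_lt_d2
    have h3 : 2 * arcsin s ≤ π * s := by
      have := mul_le_mul_of_nonneg_left h2 hpi.le
      calc 2 * arcsin s = π * (2 / π * arcsin s) := by field_simp
        _ ≤ π * s := this
    have h4 : π * s ≤ 3.15 * (1 / 31) := by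
      apply mul_le_mul hpi2.le hs1 hs0 (by norm_num)
    norm_num at h4 ⊢
    linarith
  · have h0 : 0 ≤ arcsin s := arcsin_nonneg.2 hs0
    have := sin_le h0
    rwa [sin_arcsin (by linarith) (by linarith)] at this

theorem real_low {M ρ θ δ c : ℝ} (hM : 0 < M) (hρ0 : M * (1 - θ / 8) ≤ ρ) (hρpos : 0 < ρ)
    (hθ0 : 0 ≤ θ) (hδ0 : 0 ≤ δ) (hδ1 : δ ≤ 1 / 16) (hc : 1 - δ ^ 2 / 2 ≤ c) :
    M * (1 - (θ + δ) / 8) ≤ ρ * c := by
  have hd2 : δ ^ 2 / 2 ≤ δ / 8 := by nlinarith only [hδ0, hδ1]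
  have hd3 : 0 ≤ 1 - δ ^ 2 / 2 := by nlinarith only [hδ0, hδ1]
  have h1 : M * (1 - θ / 8) * (1 - δ ^ 2 / 2) ≤ ρ * c := mul_le_mul hρ0 hc hd3 hρpos.le
  have h2 : M * (1 - (θ + δ) / 8) ≤ M * (1 - θ / 8) * (1 - δ ^ 2 / 2) := by
    rw [mul_assoc]
    apply mul_le_mul_of_nonneg_left _ hM.le
    have h5 : 0 ≤ θ / 8 * (δ ^ 2 / 2) := by positivity
    nlinarith only [h5, hd2]
  exact le_trans h2 h1

theorem real_gain {M ρ θ δ c r : ℝ} (hρpos : 0 < ρ) (hθ0 : 0 ≤ θ) (hθ2 : θ ≤ 0.7875)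
    (hδ0 : 0 ≤ δ) (hδ1 : δ ≤ 1 / 16) (hc : 1 - δ ^ 2 / 2 ≤ c) (hr : r * M ≤ ρ * δ) :
    ρ * (1 + θ / 8) + 1 / 20 * r * M ≤ ρ * c * (1 + (θ + δ) / 8) := by
  have h1 : ρ * (1 - δ ^ 2 / 2) * (1 + (θ + δ) / 8) ≤ ρ * c * (1 + (θ + δ) / 8) := by
    apply mul_le_mul_of_nonneg_right _ (by positivity)
    exact mul_le_mul_of_nonneg_left hc hρpos.le
  have h2 : ρ * (1 + θ / 8) + ρ * δ / 20 ≤ ρ * (1 - δ ^ 2 / 2) * (1 + (θ + δ) / 8) := by
    have h3 : (1 + θ / 8) + δ / 20 ≤ (1 - δ ^ 2 / 2) * (1 + (θ + δ) / 8) := by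
      have h4 : (1 + (θ + δ) / 8) ≤ 1.11 := by norm_num at hθ2 ⊢; linarith
      have h6 : δ ^ 2 / 2 ≤ δ / 32 := by nlinarith only [hδ0, hδ1]
      have h5 : δ ^ 2 / 2 * (1 + (θ + δ) / 8) ≤ δ / 32 * 1.11 :=
        mul_le_mul h6 h4 (by positivity) (by positivity)
      norm_num at h5
      linarith
    calc ρ * (1 + θ / 8) + ρ * δ / 20 = ρ * ((1 + θ / 8) + δ / 20) := by ring
      _ ≤ ρ * ((1 - δ ^ 2 / 2) * (1 + (θ + δ) / 8)) := mul_le_mul_of_nonneg_left h3 hρpos.le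
      _ = _ := by ring
  linarith

theorem real_quarter {θ' ε : ℝ} (hε : θ' = π / 4 + ε) (hε0 : 0 ≤ ε) (hε1 : ε ≤ 1 / 16) :
    0.66 ≤ cos θ' ∧ 0.7 ≤ sin θ' ∧ 1 + θ' / 8 ≤ cos θ' + 3 / 4 * sin θ' ∧ θ' / 8 ≤ 0.10625 := by
  have hpi2 : π < 3.15 := pi_lt_d2
  have hpi1 : 3.14 < π := pi_gt_d2
  have hθ'8 : θ' / 8 ≤ 0.10625 := by rw [hε]; norm_num at hpi2 ⊢; linarith
  have hsq : 0.7071 ≤ √2 / 2 := by
    have : (1.4142 : ℝ) ≤ √2 := by
      apply Real.le_sqrt_of_sq_le; norm_num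
    norm_num at this ⊢
    linarith
  have hc : cos θ' = √2 / 2 * (cos ε - sin ε) := by
    rw [hε, cos_add, cos_pi_div_four, sin_pi_div_four]; ring
  have hs : sin θ' = √2 / 2 * (cos ε + sin ε) := by
    rw [hε, sin_add, cos_pi_div_four, sin_pi_div_four]; ring
  have hce : 1 - 1 / 512 ≤ cos ε := by
    have := one_sub_sq_div_two_le_cos (x := ε)
    nlinarith only [this, hε0, hε1]
  have hse : sin ε ≤ 1 / 16 := le_trans (sin_le hε0) hε1
  have hse0 : 0 ≤ sin ε := sin_nonneg_of_nonneg_of_le_pi hε0 (by norm_num at hpi1 ⊢; linarith)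
  refine ⟨?_, ?_, ?_, hθ'8⟩
  · rw [hc]
    have h1 : (0.9355 : ℝ) ≤ cos ε - sin ε := by norm_num; linarith
    calc (0.66 : ℝ) ≤ 0.7071 * 0.9355 := by norm_num
      _ ≤ _ := mul_le_mul hsq h1 (by norm_num) (by positivity)
  · rw [hs]
    have h1 : (0.998 : ℝ) ≤ cos ε + sin ε := by norm_num at hce ⊢; linarith
    calc (0.7 : ℝ) ≤ 0.7071 * 0.998 := by norm_num
      _ ≤ _ := mul_le_mul hsq h1 (by norm_num) (by positivity)
  · rw [hc, hs]
    have h1 : (1.73 : ℝ) ≤ 7 / 4 * cos ε - 1 / 4 * sin ε := by norm_num at hce ⊢; linarith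
    have h2 : (0.7071 : ℝ) * 1.73 ≤ √2 / 2 * (7 / 4 * cos ε - 1 / 4 * sin ε) :=
      mul_le_mul hsq h1 (by norm_num) (by positivity)
    have h3 : √2 / 2 * (cos ε - sin ε) + 3 / 4 * (√2 / 2 * (cos ε + sin ε)) =
        √2 / 2 * (7 / 4 * cos ε - 1 / 4 * sin ε) := by ring
    rw [h3]
    norm_num at h2 hθ'8
    linarith

variable {X Y : Type*} [NormedAddCommGroup X] [InnerProductSpace ℝ X]
  [NormedAddCommGroup Y] [InnerProductSpace ℝ Y]

theorem inner_sum_passive (T : X →ₗ[ℝ] X →ₗ[ℝ] Y)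
    (hT : ∀ u v u' v' : X, ⟪T u v, T u' v'⟫ = ⟪u, u'⟫ * ⟪v, v'⟫)
    (U V : ℕ → X) (x : ℕ → ℝ) (n : ℕ) (u v : X) (hu : ∀ i < n, ⟪U i, u⟫ = 0) :
    ⟪∑ i ∈ Finset.range n, x i • T (U i) (V i), T u v⟫ = 0 := by
  rw [sum_inner]
  apply Finset.sum_eq_zero
  intro i hi
  rw [inner_smul_left, hT, hu i (Finset.mem_range.1 hi)]
  simp

theorem frame_norm {e' U : ℕ → X} (h : Frame e' U) (i : ℕ) : ‖U i‖ = 1 := h.on.1 i

theorem frame_inner {e' U : ℕ → X} (h : Frame e' U) {i j : ℕ} (hij : i ≠ j) : ⟪U i, U j⟫ = 0 :=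
  h.on.2 hij

theorem frame_self {e' U : ℕ → X} (h : Frame e' U) (i : ℕ) : ⟪U i, U i⟫ = 1 := by
  rw [real_inner_self_eq_norm_sq, h.on.1 i]; norm_num

/-- phase 1 step -/
theorem step_phase1 (T : X →ₗ[ℝ] X →ₗ[ℝ] Y)
    (hT : ∀ u v u' v' : X, ⟪T u v, T u' v'⟫ = ⟪u, u'⟫ * ⟪v, v'⟫)
    (e' : ℕ → X) (g : Y) (M ν r : ℝ) (h : Phase1 T e' g M ν) (hr0 : 0 ≤ r) (hr1 : r ≤ 1 / 64) :
    StepOK T e' g M ν r := by
  obtain ⟨U, V, x, n, ρ, θ, hU, hV, hM, hx, hθ0, hθ1, hρ0, hρ1, hg, hν⟩ := h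
  have hpi2 : π < 3.15 := pi_lt_d2
  have hpi1 : 3.14 < π := pi_gt_d2
  have hθ2 : θ < 0.7875 := by norm_num at hpi2 ⊢; linarith
  have hρM : 9 / 10 * M ≤ ρ := by
    have : M * (9 / 10) ≤ M * (1 - θ / 8) := by
      apply mul_le_mul_of_nonneg_left _ hM.le
      norm_num at hθ2 ⊢
      linarith
    linarith
  have hρpos : 0 < ρ := by linarith
  obtain ⟨δ, hsin, hδ0, hδ1, hδs, hcos0, hcos1⟩ := delta_facts (r * M / ρ) (by positivity) (by
    rw [div_le_iff₀ hρpos]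
    nlinarith only [hρM, hr1, hr0, hM])
  have hρs : ρ * sin δ = r * M := by rw [hsin]; field_simp
  have hδρ : r * M ≤ ρ * δ := by
    rw [← hρs, hsin]
    exact mul_le_mul_of_nonneg_left hδs hρpos.le
  set θ' := θ + δ with hθ'
  -- the new vectors
  set z : X := sin θ' • V n - cos θ' • V (n + 1) with hz
  have hnn : n ≠ n + 1 := by omega
  have hzz : ⟪z, z⟫ = 1 := by
    simp only [hz, inner_sub_left, inner_sub_right, inner_smul_left, inner_smul_right,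
      frame_self hV, frame_inner hV hnn, frame_inner hV hnn.symm]
    simp only [conj_trivial, mul_one, mul_zero, sub_zero, zero_sub]
    linear_combination sin_sq_add_cos_sq θ'
  have hznorm : ‖z‖ = 1 := by
    rw [real_inner_self_eq_norm_sq] at hzz
    have hz0 := norm_nonneg z
    nlinarith only [hz0, hzz]
  have hzorth : ∀ j, ⟪z, e' j⟫ = 0 := by
    intro j
    simp only [hz, inner_sub_left, inner_smul_left, hV.orth, mul_zero, sub_zero]
  have hVz1 : ⟪V n, z⟫ = sin θ' := by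
    simp only [hz, inner_sub_right, inner_smul_right, frame_self hV, frame_inner hV hnn]
    ring
  have hVz2 : ⟪V (n + 1), z⟫ = - cos θ' := by
    simp only [hz, inner_sub_right, inner_smul_right, frame_self hV, frame_inner hV hnn.symm]
    ring
  have hinner : ⟪g, T (U n) z⟫ = r * M := by
    rw [hg, conf, inner_add_left, inner_add_left, inner_add_left,
      inner_sum_passive T hT U V x n (U n) z (fun i hi => frame_inner hU (by omega)),
      inner_smul_left, inner_smul_left, inner_smul_left, hT, hT, hT, frame_self hU, hVz1, hVz2,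
      frame_inner hU hnn.symm, ← hρs]
    simp only [conj_trivial]
    have h1 : sin δ = sin θ' * cos θ - cos θ' * sin θ := by
      rw [← sin_sub]; congr 1; rw [hθ']; ring
    rw [h1]; ring
  have hg' : g - (r * M) • T (U n) z =
      conf T U V x n (ρ * cos δ * cos θ') (ρ * cos δ * sin θ') 0 := by
    have e1 : ρ * cos δ * cos θ' = ρ * cos θ - ρ * sin δ * sin θ' := by
      have h1 : cos θ = cos θ' * cos δ + sin θ' * sin δ := by
        rw [← cos_sub]; congr 1; rw [hθ']; ring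
      rw [h1]; ring
    have e2 : ρ * cos δ * sin θ' = ρ * sin θ + ρ * sin δ * cos θ' := by
      have h1 : sin θ = sin θ' * cos δ - cos θ' * sin δ := by
        rw [← sin_sub]; congr 1; rw [hθ']; ring
      rw [h1]; ring
    rw [e1, e2, hg, ← hρs, hz]
    simp only [conf, map_sub, map_smul, smul_sub, sub_smul, add_smul, smul_smul]
    module
  have hρ'le : ρ * cos δ ≤ ρ := mul_le_of_le_one_right hρpos.le hcos1
  have hρ'low : M * (1 - θ' / 8) ≤ ρ * cos δ := real_low hM hρ0 hρpos hθ0 hδ0 hδ1 hcos0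
  have hgain : ρ * (1 + θ / 8) + 1 / 20 * r * M ≤ ρ * cos δ * (1 + θ' / 8) :=
    real_gain hρpos hθ0 hθ2.le hδ0 hδ1 hcos0 hδρ
  by_cases hcase : θ' < π / 4
  · refine ⟨M, ∑ i ∈ Finset.range n, x i + ρ * cos δ * (1 + θ' / 8), U n, z, le_refl _, ?_,
      frame_norm hU n, hznorm, hU.orth n, hzorth, hinner, Or.inl ?_⟩
    · rw [hν]; linarith
    · refine ⟨U, V, x, n, ρ * cos δ, θ', hU, hV, hM, hx, by rw [hθ']; positivity, hcase, hρ'low,
        by linarith, hg', rfl⟩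
  · have hge : π / 4 ≤ θ' := not_lt.1 hcase
    obtain ⟨ε, hε⟩ : ∃ ε, θ' = π / 4 + ε := ⟨θ' - π / 4, by ring⟩
    have hε0 : 0 ≤ ε := by linarith
    have hε1 : ε ≤ 1 / 16 := by linarith
    obtain ⟨hcl, hsl, hkey, hθ'8⟩ := real_quarter hε hε0 hε1
    have hR : 0.89375 * M ≤ ρ * cos δ := by
      have : M * 0.89375 ≤ M * (1 - θ' / 8) := by
        apply mul_le_mul_of_nonneg_left _ hM.le
        norm_num at hθ'8 ⊢
        linarith
      linarith
    have hRpos : 0 < ρ * cos δ := by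
      have : 0 < 0.89375 * M := by positivity
      linarith
    set R := ρ * cos δ with hRdef
    refine ⟨M, ∑ i ∈ Finset.range n, x i + R * cos θ' + R * sin θ' * (3 / 4 + 0 / 8),
      U n, z, le_refl _, ?_, frame_norm hU n, hznorm, hU.orth n, hzorth, hinner, Or.inr ?_⟩
    · rw [hν]
      have := mul_le_mul_of_nonneg_left hkey hRpos.le
      linarith
    · refine ⟨U, V, x, n, R * cos θ', R * sin θ', 0, hU, hV, hM, hx, le_refl _, by positivity,
        ?_, ?_, ?_, ?_, rfl⟩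
      · have := mul_le_mul hR hcl (by norm_num) hRpos.le
        norm_num at this
        linarith
      · have h1 : (R * cos θ') ^ 2 + (R * sin θ') ^ 2 = R ^ 2 := by
          linear_combination R ^ 2 * sin_sq_add_cos_sq θ'
        rw [h1]
        have : R ≤ M := by linarith
        exact pow_le_pow_left₀ hRpos.le this 2
      · have := mul_le_mul hR hsl (by norm_num) hRpos.le
        norm_num at this ⊢
        linarith
      · rw [hg']; simp

end TH934.WGA
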