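import Pool.Agent.TH934.WGA.Plan

/-!
# The second phase of the rotation process: one step

`step_phase2`: from a phase 2 configuration one step of ratio `r ≤ 1 / 64` either turns the left
vector of the active column further (staying in phase 2) or completes the turn, in which case the
new block has diagonal form and the process continues from the diagonal configuration.
-/

namespace TH934.WGA

open MeasureTheory Filter Topology Real
open scoped RealInnerProductSpace

variable {X Y : Type*} [NormedAddCommGroup X] [InnerProductSpace ℝ X]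
  [NormedAddCommGroup Y] [InnerProductSpace ℝ Y]

namespace Step2

/-- the inner products of a frame -/
theorem frame_inner {e' U : ℕ → X} (h : Frame e' U) (i j : ℕ) :
    ⟪U i, U j⟫ = if i = j then (1 : ℝ) else 0 :=
  orthonormal_iff_ite.mp h.on i j

/-- rotating two consecutive vectors of a frame by an orthogonal matrix -/
noncomputable def rot (U : ℕ → X) (k : ℕ) (a b : ℝ) (i : ℕ) : X :=
  if i = k then a • U k + b • U (k + 1) else if i = k + 1 then (-b) • U k + a • U (k + 1) else U i

theorem rot_frame {e' U : ℕ → X} (h : Frame e' U) (k : ℕ) (a b : ℝ) (hab : a ^ 2 + b ^ 2 = 1) :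
    Frame e' (rot U k a b) := by
  have hU := frame_inner h
  constructor
  · rw [orthonormal_iff_ite]
    intro i j
    unfold rot
    have hk : k ≠ k + 1 := by omega
    by_cases hi : i = k
    · by_cases hj : j = k
      · subst hi; subst hj
        simp only [if_true, inner_add_left, inner_add_right, real_inner_smul_left,
          real_inner_smul_right, hU]
        simp
        nlinarith [hab]
      · by_cases hj' : j = k + 1
        · subst hi; subst hj'
          have h3 : ¬ (i + 1 = i) := by omega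
          simp only [if_true, if_neg h3, inner_add_left, inner_add_right, real_inner_smul_left,
            real_inner_smul_right, hU]
          simp
          ring
        · subst hi
          have h1 : ¬ (i = j) := fun h => hj h.symm
          have h2 : ¬ (i + 1 = j) := fun h => hj' h.symm
          simp only [if_true, hj, hj', if_false, inner_add_left, real_inner_smul_left, hU, h1, h2]
          simp
    · by_cases hi' : i = k + 1
      · by_cases hj : j = k
        · subst hi'; subst hj
          have h3 : ¬ (j + 1 = j) := by omega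
          simp only [if_true, if_neg h3, inner_add_left, inner_add_right, real_inner_smul_left,
            real_inner_smul_right, hU]
          simp
          ring
        · by_cases hj' : j = k + 1
          · subst hi'; subst hj'
            have h3 : ¬ (k + 1 = k) := by omega
            simp only [if_true, if_neg h3, inner_add_left, inner_add_right, real_inner_smul_left,
              real_inner_smul_right, hU]
            simp
            nlinarith [hab]
          · subst hi'
            have h1 : ¬ (k = j) := fun h => hj h.symm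
            have h2 : ¬ (k + 1 = j) := fun h => hj' h.symm
            have h3 : ¬ (k + 1 = k) := by omega
            simp only [if_true, hj, hj', if_false, inner_add_left, real_inner_smul_left, hU, h1,
              h2, h3]
            simp
      · by_cases hj : j = k
        · subst hj
          have h2 : ¬ (i = j + 1) := hi'
          simp only [if_true, hi, hi', if_false, inner_add_right, real_inner_smul_right, hU]
          simp
        · by_cases hj' : j = k + 1
          · subst hj'
            have h3 : ¬ (k + 1 = k) := by omega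
            simp only [if_true, hi, hi', h3, if_false, inner_add_right, real_inner_smul_right, hU]
            simp
          · simp only [hi, hi', hj, hj', if_false, hU]
  · intro i j
    unfold rot
    split_ifs
    · simp [inner_add_left, real_inner_smul_left, h.orth]
    · simp [inner_add_left, real_inner_smul_left, h.orth]
    · exact h.orth i j

/-- the inner product of a configuration with `T y (V (n + 1))` -/
theorem inner_conf (T : X →ₗ[ℝ] X →ₗ[ℝ] Y)
    (hT : ∀ u v u' v' : X, ⟪T u v, T u' v'⟫ = ⟪u, u'⟫ * ⟪v, v'⟫)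
    {e' U V : ℕ → X} (hV : Frame e' V) (x : ℕ → ℝ) (n : ℕ) (p q s : ℝ) (y : X) :
    ⟪conf T U V x n p q s, T y (V (n + 1))⟫ = q * ⟪U n, y⟫ + s * ⟪U (n + 1), y⟫ := by
  have hVi := frame_inner hV
  unfold conf
  rw [inner_add_left, inner_add_left, inner_add_left, sum_inner]
  have h0 : ∑ i ∈ Finset.range n, ⟪x i • T (U i) (V i), T y (V (n + 1))⟫ = 0 := by
    apply Finset.sum_eq_zero
    intro i hi
    have hi' := Finset.mem_range.mp hi
    have hne : ¬ (i = n + 1) := by omega
    rw [real_inner_smul_left, hT, hVi, if_neg hne]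
    ring
  have h1 : ¬ (n = n + 1) := by omega
  rw [h0, real_inner_smul_left, real_inner_smul_left, real_inner_smul_left, hT, hT, hT, hVi, hVi,
    if_neg h1, if_pos rfl]
  ring

/-- removing a multiple of `T y (V (n + 1))`, with `y` in the plane of `U n` and `U (n + 1)` -/
theorem conf_sub (T : X →ₗ[ℝ] X →ₗ[ℝ] Y) (U V : ℕ → X) (x : ℕ → ℝ) (n : ℕ) (p q s c a b : ℝ) :
    conf T U V x n p q s - c • T (a • U n + b • U (n + 1)) (V (n + 1)) =
      conf T U V x n p (q - c * a) (s - c * b) := by
  unfold conf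
  rw [map_add, LinearMap.add_apply, map_smul, map_smul, LinearMap.smul_apply,
    LinearMap.smul_apply, sub_smul, sub_smul, smul_add, smul_smul, smul_smul]
  abel

end Step2

open Step2

theorem step_phase2 (T : X →ₗ[ℝ] X →ₗ[ℝ] Y)
    (hT : ∀ u v u' v' : X, ⟪T u v, T u' v'⟫ = ⟪u, u'⟫ * ⟪v, v'⟫)
    (e' : ℕ → X) (g : Y) (M ν r : ℝ) (h : Phase2 T e' g M ν) (hr0 : 0 ≤ r) (hr1 : r ≤ 1 / 64)
    (hdiag : ∀ (U V : ℕ → X), Frame e' U → Frame e' V → ∀ (x : ℕ → ℝ) (m : ℕ) (M : ℝ), 0 < M →
      (∀ i < m + 1, 2 / 5 * M ≤ x i ∧ x i ≤ M) →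
      ∃ M' ≤ M, Inv T e' (∑ i ∈ Finset.range (m + 1), x i • T (U i) (V i)) M'
        (∑ i ∈ Finset.range (m + 1), x i)) :
    StepOK T e' g M ν r := by
  obtain ⟨U, V, x, n, p, ρ, ψ, hU, hV, hM, hx, hψ0, hψ1, hp, hpρ, hρ, hg, hν⟩ := h
  have hUi := frame_inner hU
  have hπ : π < 3.1416 := Real.pi_lt_d4
  have hπ' : 3.1415 < π := Real.pi_gt_d4
  -- the size of `ρ`
  have hρ49 : 49 / 100 * M ≤ ρ := by
    have h1 : ψ / 8 ≤ 19635 / 100000 := by linarith
    have h2 := mul_le_mul_of_nonneg_left h1 hM.le
    linarith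
  have hρ0 : 0 < ρ := by linarith
  have hp0 : 0 ≤ p := by linarith
  have hρM : ρ ≤ M :=
    (pow_le_pow_iff_left₀ hρ0.le hM.le two_ne_zero).mp (by linarith [sq_nonneg p])
  have hpM : p ≤ M :=
    (pow_le_pow_iff_left₀ hp0 hM.le two_ne_zero).mp (by linarith [sq_nonneg ρ])
  -- the angle `δ`
  have hrM0 : 0 ≤ r * M := mul_nonneg hr0 hM.le
  obtain ⟨δ, hδ⟩ : ∃ δ, δ = arcsin (r * M / ρ) := ⟨_, rfl⟩
  have hq0 : 0 ≤ r * M / ρ := div_nonneg hrM0 hρ0.le
  have hq1 : r * M / ρ ≤ 1 / 31 := by
    rw [div_le_iff₀ hρ0]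
    have h1 := mul_le_mul_of_nonneg_right hr1 hM.le
    linarith
  have hsin : sin δ = r * M / ρ := by
    rw [hδ]
    exact sin_arcsin (by linarith) (by linarith)
  have hρsin : ρ * sin δ = r * M := by
    rw [hsin]
    field_simp
  have hδ0 : 0 ≤ δ := by
    rw [hδ]
    exact arcsin_nonneg.mpr hq0
  have hδ2 : δ ≤ π / 2 := by
    rw [hδ]
    exact arcsin_le_pi_div_two _
  have hδ1 : δ ≤ 1 / 16 := by
    have h1 := mul_le_sin hδ0 hδ2
    rw [hsin] at h1
    have h2 : 2 / π * δ ≤ 1 / 31 := le_trans h1 hq1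
    rw [div_mul_eq_mul_div, div_le_iff₀ pi_pos] at h2
    linarith
  have hcos : 1 - δ ^ 2 / 2 ≤ cos δ := one_sub_sq_div_two_le_cos
  have hcos1 : cos δ ≤ 1 := cos_le_one δ
  have hδsin : sin δ ≤ δ := sin_le hδ0
  have hδsq : δ ^ 2 ≤ δ / 16 := by
    have h1 := mul_le_mul_of_nonneg_left hδ1 hδ0
    rw [sq]
    linarith
  have hcos9 : 998 / 1000 ≤ cos δ := by linarith
  have hsc := sin_sq_add_cos_sq δ
  have hscψ := sin_sq_add_cos_sq ψ
  have hVn1 : ‖V (n + 1)‖ = 1 := hV.on.1 _
  by_cases hcase : ψ + δ < π / 2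
  · -- the rotation goes on
    refine ⟨M, ∑ i ∈ Finset.range n, x i + p + (ρ * cos δ) * (3 / 4 + (ψ + δ) / 8),
      sin (ψ + δ) • U n + (-cos (ψ + δ)) • U (n + 1), V (n + 1), le_rfl, ?_, ?_, hVn1, ?_,
      hV.orth _, ?_, ?_⟩
    · rw [hν]
      have h1 : ρ * (3 / 4 + ψ / 8) + 1 / 20 * (r * M) ≤ ρ * cos δ * (3 / 4 + (ψ + δ) / 8) := by
        have h2 : r * M ≤ ρ * δ := by
          rw [← hρsin]
          exact mul_le_mul_of_nonneg_left hδsin hρ0.le
        have h3 : 0 ≤ 3 / 4 + (ψ + δ) / 8 := by positivity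
        have h4 : 3 / 4 + (ψ + δ) / 8 ≤ 1 := by linarith
        have h5 : (1 - δ ^ 2 / 2) * (3 / 4 + (ψ + δ) / 8) ≤ cos δ * (3 / 4 + (ψ + δ) / 8) :=
          mul_le_mul_of_nonneg_right hcos h3
        have h6 : δ ^ 2 / 2 * (3 / 4 + (ψ + δ) / 8) ≤ δ ^ 2 / 2 := by
          exact mul_le_of_le_one_right (by positivity) h4
        have h7 : (3 / 4 + ψ / 8) + δ / 20 ≤ cos δ * (3 / 4 + (ψ + δ) / 8) := by linarith
        have h8 := mul_le_mul_of_nonneg_left h7 hρ0.le
        linarith
      linarith
    · have h1 : ‖sin (ψ + δ) • U n + (-cos (ψ + δ)) • U (n + 1)‖ ^ 2 = 1 := by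
        rw [← real_inner_self_eq_norm_sq]
        simp only [inner_add_left, inner_add_right, real_inner_smul_left,
          real_inner_smul_right, hUi]
        simp
        linarith [sin_sq_add_cos_sq (ψ + δ)]
      rw [← sqrt_sq (norm_nonneg (sin (ψ + δ) • U n + (-cos (ψ + δ)) • U (n + 1))), h1, sqrt_one]
    · intro j
      simp [inner_add_left, real_inner_smul_left, hU.orth]
    · rw [hg, inner_conf T hT hV]
      simp only [inner_add_right, real_inner_smul_right, hUi]
      simp
      have h1 : sin δ = sin (ψ + δ) * cos ψ - cos (ψ + δ) * sin ψ := by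
        rw [← sin_sub]
        congr 1
        ring
      rw [← hρsin, h1]
      ring
    · rw [hg, conf_sub, ← hρsin]
      right
      have h1 : ρ * cos ψ - ρ * sin δ * sin (ψ + δ) = (ρ * cos δ) * cos (ψ + δ) := by
        have : cos ψ = cos (ψ + δ) * cos δ + sin (ψ + δ) * sin δ := by
          rw [← cos_sub]
          congr 1
          ring
        rw [this]
        ring
      have h2 : ρ * sin ψ - ρ * sin δ * (-cos (ψ + δ)) = (ρ * cos δ) * sin (ψ + δ) := by
        have : sin ψ = sin (ψ + δ) * cos δ - cos (ψ + δ) * sin δ := by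
          rw [← sin_sub]
          congr 1
          ring
        rw [this]
        ring
      refine ⟨U, V, x, n, p, ρ * cos δ, ψ + δ, hU, hV, hM, hx, by linarith, hcase, hp, ?_, ?_,
        ?_, rfl⟩
      · have h3 : (ρ * cos δ) ^ 2 ≤ ρ ^ 2 := by
          rw [mul_pow]
          exact mul_le_of_le_one_right (sq_nonneg _) (pow_le_one₀ (by linarith) hcos1)
        linarith
      · have h3 : 0 ≤ 1 - ψ / 8 := by linarith
        have h4 : 0 ≤ 1 - δ ^ 2 / 2 := by linarith
        have h5 : 61 / 100 * M * (1 - ψ / 8) * (1 - δ ^ 2 / 2) ≤ ρ * cos δ := by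
          apply mul_le_mul hρ hcos h4 hρ0.le
        have h6 : 1 - (ψ + δ) / 8 ≤ (1 - ψ / 8) * (1 - δ ^ 2 / 2) := by
          have h0 : 0 ≤ ψ * δ ^ 2 := mul_nonneg hψ0 (sq_nonneg _)
          linarith
        have h7 : 61 / 100 * M * (1 - (ψ + δ) / 8) ≤
            61 / 100 * M * ((1 - ψ / 8) * (1 - δ ^ 2 / 2)) :=
          mul_le_mul_of_nonneg_left h6 (by positivity)
        linarith
      · rw [h1, h2]
  · -- the rotation is completed
    have hcase' : π / 2 ≤ ψ + δ := not_lt.mp hcase
    have hδpos : 0 < δ := by linarith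
    have hsδpos : 0 < sin δ := sin_pos_of_pos_of_lt_pi hδpos (by linarith)
    have hrMpos : 0 < r * M := by
      rw [← hρsin]
      exact mul_pos hρ0 hsδpos
    have hcσ : cos δ ≤ sin ψ := by
      have h1 : sin (π / 2 - δ) = cos δ := sin_pi_div_two_sub δ
      rw [← h1]
      apply sin_le_sin_of_le_of_le_pi_div_two
      · linarith
      · exact hψ1.le
      · linarith
    have hc0 : 0 < cos δ := by linarith
    have hσ0 : 0 < sin ψ := by linarith
    obtain ⟨α, hα⟩ : ∃ α, α = cos δ / sin ψ := ⟨_, rfl⟩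
    have hασ : α * sin ψ = cos δ := by
      rw [hα]
      field_simp
    have hα0 : 0 < α := by
      rw [hα]
      positivity
    have hα1 : α ≤ 1 := by
      rw [hα]
      exact (div_le_one hσ0).mpr hcσ
    obtain ⟨β, hβ⟩ : ∃ β, β = √(1 - α ^ 2) := ⟨_, rfl⟩
    have hβ2 : β ^ 2 = 1 - α ^ 2 := by
      rw [hβ]
      apply sq_sqrt
      have h1 : α ^ 2 ≤ 1 := pow_le_one₀ hα0.le hα1
      linarith
    have hab : α ^ 2 + β ^ 2 = 1 := by linarith
    have hW := rot_frame hU (n + 1) α β hab
    obtain ⟨W, hWdef⟩ : ∃ W, W = rot U (n + 1) α β := ⟨_, rfl⟩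
    rw [← hWdef] at hW
    have hWn1 : W (n + 1) = α • U (n + 1) + β • U (n + 2) := by
      rw [hWdef]
      unfold rot
      rw [if_pos rfl]
    have hWlt : ∀ i, i ≤ n → W i = U i := by
      intro i hi
      rw [hWdef]
      unfold rot
      rw [if_neg (by omega), if_neg (by omega)]
    obtain ⟨x', hx'⟩ : ∃ x' : ℕ → ℝ, x' = fun i => if i < n then x i else if i = n then p
      else ρ * cos δ := ⟨_, rfl⟩
    have hxlt : ∀ i, i < n → x' i = x i := by
      intro i hi
      rw [hx']
      simp only
      rw [if_pos hi]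
    have hxn : x' n = p := by
      rw [hx']
      simp
    have hxn1 : x' (n + 1) = ρ * cos δ := by
      rw [hx']
      simp
    have hρc : ρ * cos δ ≤ ρ := mul_le_of_le_one_right hρ0.le hcos1
    have hρc' : 2 / 5 * M ≤ ρ * cos δ := by
      have h1 := mul_le_mul_of_nonneg_left hcos9 hρ0.le
      linarith
    have hbd : ∀ i < (n + 1) + 1, 2 / 5 * M ≤ x' i ∧ x' i ≤ M := by
      intro i hi
      rcases Nat.lt_trichotomy i n with h1 | h1 | h1
      · rw [hxlt i h1]
        exact hx i h1
      · rw [h1, hxn]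
        exact ⟨hp, hpM⟩
      · have : i = n + 1 := by omega
        rw [this, hxn1]
        exact ⟨hρc', hρc.trans hρM⟩
    obtain ⟨M', hM', hInv⟩ := hdiag W V hW hV x' (n + 1) M hM hbd
    have hsumx : ∑ i ∈ Finset.range (n + 1 + 1), x' i
        = ∑ i ∈ Finset.range n, x i + p + ρ * cos δ := by
      rw [Finset.sum_range_succ, Finset.sum_range_succ, hxn, hxn1]
      congr 2
      apply Finset.sum_congr rfl
      intro i hi
      exact hxlt i (Finset.mem_range.mp hi)
    have hsumT : ∑ i ∈ Finset.range (n + 1 + 1), x' i • T (W i) (V i)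
        = ∑ i ∈ Finset.range n, x i • T (U i) (V i) + p • T (U n) (V n)
          + (ρ * cos δ) • T (α • U (n + 1) + β • U (n + 2)) (V (n + 1)) := by
      rw [Finset.sum_range_succ, Finset.sum_range_succ, hxn, hxn1, hWn1, hWlt n le_rfl]
      congr 2
      apply Finset.sum_congr rfl
      intro i hi
      have hi' := Finset.mem_range.mp hi
      rw [hxlt i hi', hWlt i hi'.le]
    -- the vector `w - w'`
    obtain ⟨d, hd⟩ : ∃ d : X, d = (ρ * cos ψ) • U n + (ρ * sin ψ) • U (n + 1)
      - (ρ * cos δ) • (α • U (n + 1) + β • U (n + 2)) := ⟨_, rfl⟩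
    have i0 : ⟪U n, d⟫ = ρ * cos ψ := by
      rw [hd]
      simp only [inner_add_right, inner_sub_right, real_inner_smul_right, hUi]
      simp
    have i1 : ⟪U (n + 1), d⟫ = ρ * sin ψ - ρ * cos δ * α := by
      rw [hd]
      simp only [inner_add_right, inner_sub_right, real_inner_smul_right, hUi]
      simp
    have i2 : ⟪U (n + 2), d⟫ = - (ρ * cos δ * β) := by
      rw [hd]
      simp only [inner_add_right, inner_sub_right, real_inner_smul_right, hUi]
      simp
    have hdd : ‖d‖ ^ 2 = (r * M) ^ 2 := by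
      rw [← real_inner_self_eq_norm_sq]
      have e1 : ∀ w : X, ⟪d, w⟫ = ρ * cos ψ * ⟪U n, w⟫ + ρ * sin ψ * ⟪U (n + 1), w⟫
          - (ρ * cos δ) * (α * ⟪U (n + 1), w⟫ + β * ⟪U (n + 2), w⟫) := by
        intro w
        rw [hd, inner_sub_left, inner_add_left, real_inner_smul_left, real_inner_smul_left,
          real_inner_smul_left, inner_add_left, real_inner_smul_left, real_inner_smul_left]
      rw [e1 d, i0, i1, i2, ← hρsin]
      linear_combination ρ ^ 2 * hscψ - 2 * ρ ^ 2 * cos δ * hασ + ρ ^ 2 * cos δ ^ 2 * hab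
        - ρ ^ 2 * hsc
    have hdn : ‖d‖ = r * M := (pow_left_inj₀ (norm_nonneg d) hrM0 two_ne_zero).mp hdd
    refine ⟨M', ∑ i ∈ Finset.range (n + 1 + 1), x' i, (r * M)⁻¹ • d, V (n + 1), hM', ?_, ?_, hVn1,
      ?_, hV.orth _, ?_, ?_⟩
    · rw [hsumx, hν]
      have h1 : ρ * (3 / 4 + ψ / 8) + 1 / 20 * (r * M) ≤ ρ * cos δ := by
        have h2 : 3 / 4 + ψ / 8 ≤ 947 / 1000 := by linarith
        have h3 : r * M ≤ ρ * (1 / 31) := by
          rw [div_le_iff₀ hρ0] at hq1
          linarith
        have h4 := mul_le_mul_of_nonneg_left h2 hρ0.le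
        have h5 := mul_le_mul_of_nonneg_left hcos9 hρ0.le
        linarith
      linarith
    · rw [norm_smul, hdn, norm_inv, Real.norm_of_nonneg hrM0]
      exact inv_mul_cancel₀ hrMpos.ne'
    · intro j
      rw [real_inner_smul_left, hd]
      simp [inner_add_left, inner_sub_left, real_inner_smul_left, hU.orth]
    · rw [hg, inner_conf T hT hV, real_inner_smul_right, real_inner_smul_right, i0, i1]
      have e1 : ρ * cos ψ * (ρ * cos ψ) + ρ * sin ψ * (ρ * sin ψ - ρ * cos δ * α)
          = (r * M) ^ 2 := by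
        rw [← hρsin]
        linear_combination ρ ^ 2 * hscψ - ρ ^ 2 * cos δ * hασ - ρ ^ 2 * hsc
      have e2 : ρ * cos ψ * ((r * M)⁻¹ * (ρ * cos ψ))
          + ρ * sin ψ * ((r * M)⁻¹ * (ρ * sin ψ - ρ * cos δ * α))
          = (r * M)⁻¹ * (ρ * cos ψ * (ρ * cos ψ) + ρ * sin ψ * (ρ * sin ψ - ρ * cos δ * α)) := by
        ring
      rw [e2, e1, sq, ← mul_assoc, inv_mul_cancel₀ hrMpos.ne', one_mul]
    · have h1 : g - (r * M) • T ((r * M)⁻¹ • d) (V (n + 1)) =
          ∑ i ∈ Finset.range (n + 1 + 1), x' i • T (W i) (V i) := by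
        rw [map_smul, LinearMap.smul_apply, smul_smul, mul_inv_cancel₀ hrMpos.ne', one_smul, hsumT,
          hg, hd]
        unfold conf
        rw [map_sub, map_add, LinearMap.sub_apply, LinearMap.add_apply, map_smul, map_smul,
          map_smul, LinearMap.smul_apply, LinearMap.smul_apply, LinearMap.smul_apply]
        abel
      rw [h1]
      exact hInv

end TH934.WGA
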