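import Pool.Agent.TH934.WGA.Plan

/-!
# The weak greedy algorithm converges if the weakness sequence is not slow
-/

namespace TH934.WGA

open MeasureTheory Filter Topology Real
open scoped RealInnerProductSpace

namespace Suff

variable {F : Type*} [NormedAddCommGroup F] [InnerProductSpace ℝ F] {D : Set F} {t : ℕ → ℝ}
  {f φ : ℕ → F}

/-- the greedy supremum -/
noncomputable def N (D : Set F) (x : F) : ℝ := ⨆ g : D, |⟪x, (g : F)⟫|

lemma bdd (hD : ∀ g ∈ D, ‖g‖ = 1) (x : F) : BddAbove (Set.range fun g : D => |⟪x, (g : F)⟫|) := by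
  refine ⟨‖x‖, ?_⟩
  rintro _ ⟨g, rfl⟩
  have h := abs_real_inner_le_norm x (g : F)
  rwa [hD g g.2, mul_one] at h

lemma le_N (hD : ∀ g ∈ D, ‖g‖ = 1) (x : F) {g : F} (hg : g ∈ D) : |⟪x, g⟫| ≤ N D x :=
  le_ciSup (bdd hD x) ⟨g, hg⟩

lemma N_nonneg (x : F) : 0 ≤ N D x := Real.iSup_nonneg fun _ => abs_nonneg _

lemma norm_step (hD : ∀ g ∈ D, ‖g‖ = 1) (h : IsWGA D t f φ) (m : ℕ) :
    ‖f (m + 1)‖ ^ 2 = ‖f m‖ ^ 2 - |⟪f m, φ m⟫| ^ 2 := by
  rw [h.step m, norm_sub_sq_real, inner_smul_right, norm_smul, hD _ (h.mem m), Real.norm_eq_abs,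
    mul_one, sq_abs]
  ring

lemma norm_anti (hD : ∀ g ∈ D, ‖g‖ = 1) (h : IsWGA D t f φ) : Antitone fun m => ‖f m‖ := by
  refine antitone_nat_of_succ_le fun m => ?_
  have h1 := norm_step hD h m
  refine (sq_le_sq₀ (norm_nonneg _) (norm_nonneg _)).1 ?_
  rw [h1]
  have := sq_nonneg |⟪f m, φ m⟫|
  linarith

lemma sum_sq (hD : ∀ g ∈ D, ‖g‖ = 1) (h : IsWGA D t f φ) (n : ℕ) :
    ∑ j ∈ Finset.range n, |⟪f j, φ j⟫| ^ 2 = ‖f 0‖ ^ 2 - ‖f n‖ ^ 2 := by
  induction n with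
  | zero => simp
  | succ n ih =>
    rw [Finset.sum_range_succ, ih, norm_step hD h n]
    ring

lemma summable_sq (hD : ∀ g ∈ D, ‖g‖ = 1) (h : IsWGA D t f φ) :
    Summable fun j => |⟪f j, φ j⟫| ^ 2 := by
  refine summable_of_sum_range_le (c := ‖f 0‖ ^ 2) (fun j => sq_nonneg _) fun n => ?_
  rw [sum_sq hD h n]
  have := sq_nonneg ‖f n‖
  linarith

/-- the key claim -/
lemma claim (hD : ∀ g ∈ D, ‖g‖ = 1) (h : IsWGA D t f φ) (hV : ¬ Slow t) {ε : ℝ} (hε : 0 < ε) :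
    ∃ m, N D (f m) * (1 + ∑ j ∈ Finset.range m, |⟪f j, φ j⟫|) < ε := by
  by_contra hcon
  push Not at hcon
  refine hV ⟨fun m => max 1 (1 / ε) * |⟪f m, φ m⟫| + (if m = 0 then 1 else 0), ?_, ?_, ?_⟩
  · intro k
    have : (0 : ℝ) ≤ max 1 (1 / ε) := zero_le_one.trans (le_max_left _ _)
    have h1 : (0 : ℝ) ≤ if k = 0 then 1 else 0 := by split_ifs <;> norm_num
    have h2 := abs_nonneg ⟪f k, φ k⟫
    positivity
  · have h1 := (summable_sq hD h).mul_left (2 * (max 1 (1 / ε)) ^ 2)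
    have h2 : Summable fun k : ℕ => (if k = 0 then (2 : ℝ) else 0) :=
      (hasSum_ite_eq 0 (2 : ℝ)).summable
    refine Summable.of_nonneg_of_le (fun k => sq_nonneg _) (fun k => ?_) (h1.add h2)
    have h3 : (if k = 0 then (2 : ℝ) else 0) = 2 * (if k = 0 then (1 : ℝ) else 0) ^ 2 := by
      split_ifs <;> norm_num
    rw [h3]
    nlinarith [sq_nonneg (max 1 (1 / ε) * |⟪f k, φ k⟫| - (if k = 0 then (1 : ℝ) else 0))]
  · intro m
    have hC1 : (1 : ℝ) ≤ max 1 (1 / ε) := le_max_left _ _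
    have hC2 : 1 / ε ≤ max 1 (1 / ε) := le_max_right _ _
    set C : ℝ := max 1 (1 / ε) with hC
    set b : ℕ → ℝ := fun j => |⟪f j, φ j⟫| with hb
    have hb0 : ∀ j, 0 ≤ b j := fun j => abs_nonneg _
    set B : ℝ := ∑ j ∈ Finset.range m, b j with hB
    have hB0 : 0 ≤ B := Finset.sum_nonneg fun j _ => hb0 j
    have hN := hcon m
    have hN0 : 0 ≤ N D (f m) := N_nonneg _
    have hNpos : 0 < N D (f m) := by
      rcases hN0.lt_or_eq with h1 | h1
      · exact h1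
      · rw [← h1, zero_mul] at hN
        linarith
    have hg : t m * N D (f m) ≤ b m := h.greedy m
    -- the sum
    have hsum : 1 + B ≤ ∑ j ∈ Finset.range (m + 1), (C * b j + (if j = 0 then (1 : ℝ) else 0)) := by
      rw [Finset.sum_add_distrib, ← Finset.mul_sum]
      have h1 : ∑ j ∈ Finset.range (m + 1), (if j = 0 then (1 : ℝ) else 0) = 1 := by
        rw [Finset.sum_ite_eq' (Finset.range (m + 1)) 0]
        simp
      rw [h1, Finset.sum_range_succ]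
      have h2 : B ≤ C * (∑ j ∈ Finset.range m, b j + b m) := by
        have h3 := hb0 m
        nlinarith
      linarith
    have ha : 1 / ε * b m ≤ C * b m + (if m = 0 then (1 : ℝ) else 0) := by
      have h1 : (0 : ℝ) ≤ if m = 0 then 1 else 0 := by split_ifs <;> norm_num
      have h2 := mul_le_mul_of_nonneg_right hC2 (hb0 m)
      linarith
    have ht : t m ≤ 1 / ε * b m * (1 + B) := by
      have h1 : t m ≤ b m / N D (f m) := by rwa [le_div_iff₀ hNpos]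
      refine h1.trans ?_
      rw [div_le_iff₀ hNpos]
      have h2 : ε ≤ N D (f m) * (1 + B) := hN
      have h3 : 1 ≤ 1 / ε * (N D (f m) * (1 + B)) := by
        rw [one_div, ← div_eq_inv_mul, le_div_iff₀ hε, one_mul]
        exact h2
      calc b m = b m * 1 := (mul_one _).symm
        _ ≤ b m * (1 / ε * (N D (f m) * (1 + B))) := mul_le_mul_of_nonneg_left h3 (hb0 m)
        _ = _ := by ring
    have h0 : 0 ≤ 1 / ε * b m := mul_nonneg (by positivity) (hb0 m)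
    exact ht.trans (mul_le_mul ha hsum (by linarith) (h0.trans ha))

lemma diff (h : IsWGA D t f φ) (n : ℕ) :
    f 0 - f n = ∑ j ∈ Finset.range n, ⟪f j, φ j⟫ • φ j := by
  induction n with
  | zero => simp
  | succ n ih =>
    rw [Finset.sum_range_succ, ← ih, h.step n]
    abel

lemma inner_diff (hD : ∀ g ∈ D, ‖g‖ = 1) (h : IsWGA D t f φ) (n : ℕ) :
    |⟪f 0 - f n, f n⟫| ≤ (∑ j ∈ Finset.range n, |⟪f j, φ j⟫|) * N D (f n) := by
  rw [diff h n, sum_inner, Finset.sum_mul]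
  refine (Finset.abs_sum_le_sum_abs _ _).trans (Finset.sum_le_sum fun j _ => ?_)
  rw [real_inner_smul_left, abs_mul, real_inner_comm (f n) (φ j)]
  exact mul_le_mul_of_nonneg_left (le_N hD (f n) (h.mem j)) (abs_nonneg _)

lemma span_bound (hD : ∀ g ∈ D, ‖g‖ = 1) {h : F} (hh : h ∈ Submodule.span ℝ D) :
    ∃ C : ℝ, 0 ≤ C ∧ ∀ x : F, |⟪h, x⟫| ≤ C * N D x := by
  induction hh using Submodule.span_induction with
  | mem g hg =>
    refine ⟨1, zero_le_one, fun x => ?_⟩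
    rw [one_mul, real_inner_comm]
    exact le_N hD x hg
  | zero => exact ⟨0, le_rfl, fun x => by simp⟩
  | add a b _ _ iha ihb =>
    obtain ⟨C1, h1, h2⟩ := iha
    obtain ⟨C2, h3, h4⟩ := ihb
    refine ⟨C1 + C2, add_nonneg h1 h3, fun x => ?_⟩
    rw [inner_add_left, add_mul]
    exact (abs_add_le _ _).trans (add_le_add (h2 x) (h4 x))
  | smul c a _ iha =>
    obtain ⟨C1, h1, h2⟩ := iha
    refine ⟨|c| * C1, mul_nonneg (abs_nonneg _) h1, fun x => ?_⟩
    rw [real_inner_smul_left, abs_mul, mul_assoc]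
    exact mul_le_mul_of_nonneg_left (h2 x) (abs_nonneg _)

/-- some remainder is small -/
lemma small (hD : ∀ g ∈ D, ‖g‖ = 1) (hspan : (Submodule.span ℝ D).topologicalClosure = ⊤)
    (h : IsWGA D t f φ) (hV : ¬ Slow t) {ε : ℝ} (hε : 0 < ε) : ∃ n, ‖f n‖ ^ 2 < ε := by
  have hmem : f 0 ∈ closure ((Submodule.span ℝ D : Submodule ℝ F) : Set F) := by
    rw [← Submodule.topologicalClosure_coe, hspan]
    trivial
  have hδ : 0 < ε / (2 * (‖f 0‖ + 1)) := by positivity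
  obtain ⟨g, hg, hdist⟩ := Metric.mem_closure_iff.1 hmem _ hδ
  rw [dist_eq_norm] at hdist
  obtain ⟨C, hC0, hC⟩ := span_bound hD hg
  have hε2 : 0 < ε / (2 * (1 + C)) := by positivity
  obtain ⟨n, hn⟩ := claim hD h hV hε2
  refine ⟨n, ?_⟩
  set B : ℝ := ∑ j ∈ Finset.range n, |⟪f j, φ j⟫| with hB
  have hB0 : 0 ≤ B := Finset.sum_nonneg fun j _ => abs_nonneg _
  have hN0 : 0 ≤ N D (f n) := N_nonneg _
  have e1 : ‖f n‖ ^ 2 = ⟪f 0 - g, f n⟫ + ⟪g, f n⟫ - ⟪f 0 - f n, f n⟫ := by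
    rw [← real_inner_self_eq_norm_sq, inner_sub_left, inner_sub_left]
    ring
  have e2 : ⟪f 0 - g, f n⟫ ≤ ε / (2 * (‖f 0‖ + 1)) * ‖f 0‖ :=
    (real_inner_le_norm _ _).trans (mul_le_mul hdist.le (norm_anti hD h (Nat.zero_le n))
      (norm_nonneg _) hδ.le)
  have e3 : ⟪g, f n⟫ ≤ C * N D (f n) := (le_abs_self _).trans (hC _)
  have e4 : -⟪f 0 - f n, f n⟫ ≤ B * N D (f n) := (neg_le_abs _).trans (inner_diff hD h n)
  have e5 : ε / (2 * (‖f 0‖ + 1)) * ‖f 0‖ ≤ ε / 2 := by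
    rw [div_mul_eq_mul_div, div_le_div_iff₀ (by positivity) (by norm_num)]
    nlinarith [norm_nonneg (f 0)]
  have e6 : C * N D (f n) + B * N D (f n) ≤ (1 + C) * (N D (f n) * (1 + B)) := by
    nlinarith [mul_nonneg hC0 hN0, mul_nonneg (mul_nonneg hC0 hN0) hB0, hN0]
  have e7 : (1 + C) * (N D (f n) * (1 + B)) < ε / 2 := by
    have : (1 + C) * (N D (f n) * (1 + B)) < (1 + C) * (ε / (2 * (1 + C))) :=
      mul_lt_mul_of_pos_left hn (by linarith)
    refine this.trans_eq ?_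
    field_simp
  rw [e1]
  linarith

end Suff

/-- the weak greedy algorithm converges for every dictionary if the weakness sequence is not
slow -/
theorem converges_of_not_slow {F : Type*} [NormedAddCommGroup F] [InnerProductSpace ℝ F]
    (D : Set F) (hD : ∀ g ∈ D, ‖g‖ = 1) (hspan : (Submodule.span ℝ D).topologicalClosure = ⊤)
    (t : ℕ → ℝ) (ht0 : ∀ k, 0 ≤ t k) (ht1 : ∀ k, t k ≤ 1) (hV : ¬ Slow t) : Converges D t := by
  intro f φ h
  rw [Metric.tendsto_atTop]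
  intro ε hε
  obtain ⟨n, hn⟩ := Suff.small hD hspan h hV (by positivity : 0 < ε ^ 2)
  refine ⟨n, fun m hm => ?_⟩
  rw [Real.dist_eq, sub_zero, abs_of_nonneg (norm_nonneg _)]
  have h1 := Suff.norm_anti hD h hm
  have h2 : ‖f n‖ < ε := lt_of_pow_lt_pow_left₀ 2 hε.le hn
  exact lt_of_le_of_lt h1 h2

end TH934.WGA
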