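import Pool.Agent.TH934.WGA.Plan

/-!
# The tensor map of `L²([0,1])`
-/

namespace TH934.WGA

open MeasureTheory Filter Topology Real
open scoped RealInnerProductSpace

namespace Tensor

theorem ae_fst {p : unitInterval → Prop} (h : ∀ᵐ x, p x) :
    ∀ᵐ z : unitInterval × unitInterval, p z.1 := by
  rw [Measure.volume_eq_prod]
  exact Measure.quasiMeasurePreserving_fst.ae h

theorem ae_snd {p : unitInterval → Prop} (h : ∀ᵐ x, p x) :
    ∀ᵐ z : unitInterval × unitInterval, p z.2 := by
  rw [Measure.volume_eq_prod]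
  exact Measure.quasiMeasurePreserving_snd.ae h

theorem mem (u v : E) :
    MemLp (fun z : unitInterval × unitInterval => u z.1 * v z.2) 2 volume := by
  have hu : Integrable (fun x => u x ^ 2) (volume : Measure unitInterval) :=
    (memLp_two_iff_integrable_sq (Lp.aestronglyMeasurable u)).1 (Lp.memLp u)
  have hv : Integrable (fun x => v x ^ 2) (volume : Measure unitInterval) :=
    (memLp_two_iff_integrable_sq (Lp.aestronglyMeasurable v)).1 (Lp.memLp v)
  have hm : AEStronglyMeasurable (fun z : unitInterval × unitInterval => u z.1 * v z.2) volume := by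
    rw [Measure.volume_eq_prod]
    exact (Lp.aestronglyMeasurable u).comp_fst.mul (Lp.aestronglyMeasurable v).comp_snd
  rw [memLp_two_iff_integrable_sq hm, Measure.volume_eq_prod]
  have := hu.mul_prod hv
  simpa only [mul_pow] using this

/-- `u(x) v(y)` -/
noncomputable def ten (u v : E) : H := (mem u v).toLp _

theorem coe_ten (u v : E) :
    ∀ᵐ z : unitInterval × unitInterval, ten u v z = u z.1 * v z.2 :=
  (mem u v).coeFn_toLp

theorem inner_ten (u v u' v' : E) : ⟪ten u v, ten u' v'⟫ = ⟪u, u'⟫ * ⟪v, v'⟫ := by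
  rw [L2.inner_def, L2.inner_def, L2.inner_def, ← integral_prod_mul, ← Measure.volume_eq_prod]
  refine integral_congr_ae ?_
  filter_upwards [coe_ten u v, coe_ten u' v'] with z h1 h2
  rw [h1, h2]
  simp only [RCLike.inner_apply, conj_trivial]
  ring

theorem ext_ten {f g : H} (h : ∀ᵐ z, f z = g z) : f = g := Lp.ext h

end Tensor

open Tensor

theorem exists_tensor :
    ∃ T : E →ₗ[ℝ] E →ₗ[ℝ] H,
      (∀ u v : E, ∀ᵐ z : unitInterval × unitInterval, T u v z = u z.1 * v z.2) ∧
      (∀ u v u' v' : E, ⟪T u v, T u' v'⟫ = ⟪u, u'⟫ * ⟪v, v'⟫) := by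
  refine ⟨LinearMap.mk₂ ℝ ten ?_ ?_ ?_ ?_, fun u v => coe_ten u v, fun u v u' v' =>
    inner_ten u v u' v'⟩
  · intro u u' v
    apply Lp.ext
    filter_upwards [coe_ten (u + u') v, coe_ten u v, coe_ten u' v,
      Lp.coeFn_add (ten u v) (ten u' v), ae_fst (Lp.coeFn_add u u')] with z h1 h2 h3 h4 h5
    rw [h1, h4, Pi.add_apply, h2, h3, h5, Pi.add_apply]
    ring
  · intro c u v
    apply Lp.ext
    filter_upwards [coe_ten (c • u) v, coe_ten u v, Lp.coeFn_smul c (ten u v),
      ae_fst (Lp.coeFn_smul c u)] with z h1 h2 h3 h4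
    rw [h1, h3, Pi.smul_apply, h2, h4, Pi.smul_apply, smul_eq_mul, smul_eq_mul]
    ring
  · intro u v v'
    apply Lp.ext
    filter_upwards [coe_ten u (v + v'), coe_ten u v, coe_ten u v',
      Lp.coeFn_add (ten u v) (ten u v'), ae_snd (Lp.coeFn_add v v')] with z h1 h2 h3 h4 h5
    rw [h1, h4, Pi.add_apply, h2, h3, h5, Pi.add_apply]
    ring
  · intro c u v
    apply Lp.ext
    filter_upwards [coe_ten u (c • v), coe_ten u v, Lp.coeFn_smul c (ten u v),
      ae_snd (Lp.coeFn_smul c v)] with z h1 h2 h3 h4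
    rw [h1, h3, Pi.smul_apply, h2, h4, Pi.smul_apply, smul_eq_mul, smul_eq_mul]
    ring

end TH934.WGA
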